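import Pool.Agent.Q257.CL.Struct

set_option autoImplicit false

namespace Q257.CL

open Finset

section
variable {α : Type*} [Fintype α] [DecidableEq α] (val : α → ℤ) (idx : α → ℕ) (D : ℕ)

/-- Admissible next entries. -/
def Opt {m : ℕ} (q : Fin m → α) : Finset α :=
  univ.filter fun y => (∃ i, idx (q i) ≤ idx y + D ∧ idx y ≤ idx (q i) + D) ∨
    ∃ B : Finset (Fin m), val y = - ∑ i ∈ B, val (q i)

/-- Chains of admissible entries. -/
def chain : (m : ℕ) → Finset (Fin (m + 1) → α)
  | 0 => univ
  | m + 1 => (chain m).biUnion fun q => (Opt val idx D q).image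
      fun y => (Fin.snoc q y : Fin (m + 2) → α)

variable {val idx D}

theorem card_Opt (M1 M2 : ℕ)
    (h1 : ∀ x, (univ.filter fun y => idx x ≤ idx y + D ∧ idx y ≤ idx x + D).card ≤ M1)
    (h2 : ∀ c : ℤ, (univ.filter fun y => val y = c).card ≤ M2) (m : ℕ) (hm : m ≤ 5)
    (q : Fin m → α) : (Opt val idx D q).card ≤ 5 * M1 + 32 * M2 := by
  have h3 : Opt val idx D q ⊆
      (univ.biUnion fun i : Fin m =>
        univ.filter fun y => idx (q i) ≤ idx y + D ∧ idx y ≤ idx (q i) + D) ∪
      (univ.biUnion fun B : Finset (Fin m) => univ.filter fun y => val y = - ∑ i ∈ B, val (q i)) := by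
    intro y hy
    unfold Opt at hy
    rw [Finset.mem_filter] at hy
    rcases hy.2 with ⟨i, hi⟩ | ⟨B, hB⟩
    · refine Finset.mem_union_left _ ?_
      rw [Finset.mem_biUnion]
      exact ⟨i, Finset.mem_univ _, by simpa using hi⟩
    · refine Finset.mem_union_right _ ?_
      rw [Finset.mem_biUnion]
      exact ⟨B, Finset.mem_univ _, by simpa using hB⟩
  refine (Finset.card_le_card h3).trans ((Finset.card_union_le _ _).trans ?_)
  refine add_le_add ?_ ?_
  · refine Finset.card_biUnion_le.trans ((Finset.sum_le_card_nsmul _ _ M1 fun i _ => h1 _).trans ?_)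
    rw [Finset.card_univ, Fintype.card_fin, smul_eq_mul]
    gcongr
  · refine Finset.card_biUnion_le.trans ((Finset.sum_le_card_nsmul _ _ M2 fun i _ => h2 _).trans ?_)
    rw [Finset.card_univ, Fintype.card_finset, Fintype.card_fin, smul_eq_mul]
    gcongr
    calc 2 ^ m ≤ 2 ^ 5 := Nat.pow_le_pow_right (by norm_num) hm
      _ = 32 := by norm_num

theorem card_chain (M : ℕ) (h : ∀ m ≤ 5, ∀ q : Fin m → α, (Opt val idx D q).card ≤ M)
    (m : ℕ) (hm : m ≤ 5) : (chain val idx D m).card ≤ Fintype.card α * M ^ m := by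
  induction m with
  | zero =>
    simp [chain]
  | succ m ih =>
    unfold chain
    refine Finset.card_biUnion_le.trans ?_
    refine (Finset.sum_le_card_nsmul _ _ M fun q _ =>
      Finset.card_image_le.trans (h (m + 1) hm q)).trans ?_
    rw [smul_eq_mul, pow_succ, ← mul_assoc]
    exact Nat.mul_le_mul_right _ (ih (by omega))

theorem Reach.exists_chain {p : Fin 6 → α} {A : Finset (Fin 6)} (h : Reach val idx D p A) :
    ∃ (m : ℕ) (f : Fin (m + 1) → Fin 6), Function.Injective f ∧ univ.image f = A ∧
      p ∘ f ∈ chain val idx D m := by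
  have extend : ∀ (A : Finset (Fin 6)) (j : Fin 6), j ∉ A →
      ∀ (m : ℕ) (f : Fin (m + 1) → Fin 6), Function.Injective f → univ.image f = A →
      p ∘ f ∈ chain val idx D m → p j ∈ Opt val idx D (p ∘ f) →
      ∃ (m : ℕ) (f : Fin (m + 1) → Fin 6), Function.Injective f ∧ univ.image f = insert j A ∧
      p ∘ f ∈ chain val idx D m := by
    intro A j hj m f hf hA hc ho
    refine ⟨m + 1, Fin.snoc f j, ?_, ?_, ?_⟩
    · refine (Fin.snoc_injective_iff).2 ⟨hf, ?_⟩
      rintro ⟨i, hi⟩
      apply hj
      rw [← hA, ← hi]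
      exact Finset.mem_image_of_mem _ (Finset.mem_univ _)
    · ext x
      rw [Finset.mem_image, Finset.mem_insert, ← hA, Finset.mem_image]
      constructor
      · rintro ⟨i, _, rfl⟩
        refine Fin.lastCases ?_ (fun i => ?_) i
        · left; simp
        · right; exact ⟨i, Finset.mem_univ _, by simp⟩
      · rintro (rfl | ⟨i, _, rfl⟩)
        · exact ⟨Fin.last _, Finset.mem_univ _, by simp⟩
        · exact ⟨i.castSucc, Finset.mem_univ _, by simp⟩
    · rw [Fin.comp_snoc]
      unfold chain
      rw [Finset.mem_biUnion]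
      exact ⟨p ∘ f, hc, Finset.mem_image_of_mem _ ho⟩
  induction h with
  | single i =>
    refine ⟨0, fun _ => i, ?_, ?_, ?_⟩
    · intro a b _; exact Fin.ext (by omega)
    · ext x; simp [eq_comm]
    · simp [chain]
  | near A i j _ hi h1 h2 ih =>
    obtain ⟨m, f, hf, hA, hc⟩ := ih
    by_cases hj : j ∈ A
    · rw [Finset.insert_eq_self.2 hj]; exact ⟨m, f, hf, hA, hc⟩
    · refine extend A j hj m f hf hA hc ?_
      unfold Opt
      rw [Finset.mem_filter]
      refine ⟨Finset.mem_univ _, Or.inl ?_⟩
      rw [← hA, Finset.mem_image] at hi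
      obtain ⟨s, _, rfl⟩ := hi
      exact ⟨s, h1, h2⟩
  | det A B j _ hB hv ih =>
    obtain ⟨m, f, hf, hA, hc⟩ := ih
    by_cases hj : j ∈ A
    · rw [Finset.insert_eq_self.2 hj]; exact ⟨m, f, hf, hA, hc⟩
    · refine extend A j hj m f hf hA hc ?_
      unfold Opt
      rw [Finset.mem_filter]
      refine ⟨Finset.mem_univ _, Or.inr ⟨univ.filter fun s => f s ∈ B, ?_⟩⟩
      rw [hv]
      congr 1
      have : B = (univ.filter fun s => f s ∈ B).image f := by
        ext x
        rw [Finset.mem_image]
        constructor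
        · intro hx
          have hxA := hB hx
          rw [← hA, Finset.mem_image] at hxA
          obtain ⟨s, _, rfl⟩ := hxA
          exact ⟨s, by simpa using hx, rfl⟩
        · rintro ⟨s, hs, rfl⟩
          simpa using hs
      conv_lhs => rw [this]
      rw [Finset.sum_image fun a _ b _ hab => hf hab]
      rfl

open Classical in
theorem card_reach (M : ℕ) (h : ∀ m ≤ 5, ∀ q : Fin m → α, (Opt val idx D q).card ≤ M) :
    (univ.filter fun p : Fin 6 → α => Reach val idx D p univ).card ≤
      6 ^ 6 * (Fintype.card α * M ^ 5) := by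
  have h1 : (univ.filter fun p : Fin 6 → α => Reach val idx D p univ) ⊆
      (univ : Finset (Fin 6 → Fin 6)).biUnion fun g => (chain val idx D 5).image
        fun q => q ∘ g := by
    intro p hp
    rw [Finset.mem_filter] at hp
    obtain ⟨m, f, hf, hA, hc⟩ := hp.2.exists_chain
    have hm : m + 1 = 6 := by
      have := Finset.card_image_of_injective (univ : Finset (Fin (m + 1))) hf
      rw [hA] at this
      simpa using this.symm
    obtain rfl : m = 5 := by omega
    have hb := Finite.injective_iff_bijective.1 hf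
    let e := Equiv.ofBijective f hb
    rw [Finset.mem_biUnion]
    refine ⟨e.symm, Finset.mem_univ _, ?_⟩
    rw [Finset.mem_image]
    refine ⟨p ∘ f, hc, ?_⟩
    funext i
    change p (e (e.symm i)) = p i
    rw [Equiv.apply_symm_apply]
  refine (Finset.card_le_card h1).trans (Finset.card_biUnion_le.trans ?_)
  refine (Finset.sum_le_card_nsmul _ _ _ fun g _ =>
    Finset.card_image_le.trans (card_chain M h 5 le_rfl)).trans ?_
  rw [smul_eq_mul]
  refine Nat.mul_le_mul_right _ ?_
  simp

end

end Q257.CL
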