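import Mathlib

set_option autoImplicit false

namespace Q257.CL

open MeasureTheory ProbabilityTheory

/-- The sixth cumulant of a centred bounded random variable in terms of its moments. -/
theorem kappa6 {Ω : Type*} [MeasurableSpace Ω] (μ : Measure Ω) [IsProbabilityMeasure μ]
    (X : Ω → ℝ) (hX : Measurable X) (C : ℝ) (hC : ∀ ω, |X ω| ≤ C) (h1 : ∫ ω, X ω ∂μ = 0) :
    iteratedDeriv 6 (fun t => Real.log (∫ ω, Real.exp (t * X ω) ∂μ)) 0 =
      ∫ ω, X ω ^ 6 ∂μ - 15 * (∫ ω, X ω ^ 4 ∂μ) * (∫ ω, X ω ^ 2 ∂μ)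
        - 10 * (∫ ω, X ω ^ 3 ∂μ) ^ 2 + 30 * (∫ ω, X ω ^ 2 ∂μ) ^ 3 := by
  have hset : integrableExpSet X μ = Set.univ := by
    ext t
    simp only [Set.mem_univ, iff_true]
    refine Integrable.of_bound (C := Real.exp (|t| * C)) ?_ (Filter.Eventually.of_forall ?_)
    · exact (Real.measurable_exp.comp (hX.const_mul t)).aestronglyMeasurable
    · intro ω
      rw [Real.norm_eq_abs, abs_of_pos (Real.exp_pos _)]
      refine Real.exp_le_exp.2 ?_
      calc t * X ω ≤ |t * X ω| := le_abs_self _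
        _ = |t| * |X ω| := abs_mul _ _
        _ ≤ |t| * C := by gcongr; exact hC ω
  have hint : ∀ t : ℝ, t ∈ interior (integrableExpSet X μ) := by
    intro t; rw [hset]; simp
  set M : ℝ → ℝ := mgf X μ with hM
  set L : ℝ → ℝ := cgf X μ with hL
  have hLfun : (fun t => Real.log (∫ ω, Real.exp (t * X ω) ∂μ)) = L := by
    funext t; rfl
  have hML : ∀ n : ℕ, iteratedDeriv n M 0 = ∫ ω, X ω ^ n ∂μ := by
    intro n
    rw [hM, iteratedDeriv_mgf_zero (hint 0) n]
    rfl
  have hLan : ∀ t, AnalyticAt ℝ L t := fun t => analyticAt_cgf (hint t)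
  have hMan : ∀ t, AnalyticAt ℝ M t := fun t => analyticAt_mgf (hint t)
  have hMpos : ∀ t, 0 < M t := fun t => mgf_pos (by
    have := hint t
    exact integrable_of_mem_integrableExpSet (interior_subset this))
  have hLd : ∀ t, AnalyticAt ℝ (deriv L) t := fun t => (hLan t).deriv
  have hexp : M = fun t => Real.exp (L t) := by
    funext t
    change M t = Real.exp (Real.log (M t))
    rw [Real.exp_log (hMpos t)]
  have hder : deriv M = deriv L * M := by
    funext t
    have h2 : HasDerivAt (fun t => Real.exp (L t)) (Real.exp (L t) * deriv L t) t :=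
      (hLan t).differentiableAt.hasDerivAt.exp
    rw [← hexp] at h2
    rw [h2.deriv, Pi.mul_apply, hexp]
    ring
  have hrec : ∀ m : ℕ, iteratedDeriv (m + 1) M 0 = ∑ i ∈ Finset.range (m + 1),
      (m.choose i : ℝ) * iteratedDeriv (i + 1) L 0 * iteratedDeriv (m - i) M 0 := by
    intro m
    rw [iteratedDeriv_succ', hder, iteratedDeriv_mul]
    · refine Finset.sum_congr rfl fun i hi => ?_
      rw [iteratedDeriv_succ']
    · exact (hLd 0).contDiffAt
    · exact (hMan 0).contDiffAt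
  have e0 : iteratedDeriv 0 M 0 = 1 := by rw [hML]; simp
  have e1 : iteratedDeriv 1 M 0 = 0 := by rw [hML]; simpa using h1
  have r1 := hrec 0
  have r2 := hrec 1
  have r3 := hrec 2
  have r4 := hrec 3
  have r5 := hrec 4
  have r6 := hrec 5
  simp only [Finset.sum_range_succ, Finset.sum_range_zero, Nat.choose, Nat.sub_self,
    Nat.sub_zero, zero_add, Nat.reduceAdd, Nat.reduceSub] at r1 r2 r3 r4 r5 r6
  rw [hLfun, ← hML 6, ← hML 4, ← hML 3, ← hML 2]
  rw [e0, e1] at r1
  push_cast at r1 r2 r3 r4 r5 r6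
  rw [e0, e1] at r2
  rw [e0, e1] at r3
  rw [e0, e1] at r4
  rw [e0, e1] at r5
  rw [e0, e1] at r6
  generalize iteratedDeriv 1 L 0 = k1 at *
  generalize iteratedDeriv 2 L 0 = k2 at *
  generalize iteratedDeriv 3 L 0 = k3 at *
  generalize iteratedDeriv 4 L 0 = k4 at *
  generalize iteratedDeriv 5 L 0 = k5 at *
  generalize iteratedDeriv 6 L 0 = k6 at *
  generalize iteratedDeriv 2 M 0 = m2 at *
  generalize iteratedDeriv 3 M 0 = m3 at *
  generalize iteratedDeriv 4 M 0 = m4 at *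
  generalize iteratedDeriv 5 M 0 = m5 at *
  generalize iteratedDeriv 6 M 0 = m6 at *
  have k1z : k1 = 0 := by linarith
  subst k1z
  have k2z : k2 = m2 := by linarith
  subst k2z
  have k3z : k3 = m3 := by linarith
  subst k3z
  have k4z : k4 = m4 - 3 * k2 ^ 2 := by linarith
  subst k4z
  have k6z : k6 = m6 - 5 * k2 * m4 - 10 * k3 ^ 2 - 10 * (m4 - 3 * k2 ^ 2) * k2 := by linarith
  rw [k6z]
  ring

end Q257.CL
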