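import Pool.Agent.Q257.CL.Mom

set_option autoImplicit false

namespace Q257.CL

open Finset

/-- Indicator that the sub-sum over `B` vanishes. -/
def z (v : Fin 6 → ℤ) (B : Finset (Fin 6)) : ℤ := if ∑ i ∈ B, v i = 0 then 1 else 0

/-- Six times the joint cumulant of six characters with total frequency zero. -/
def kap (v : Fin 6 → ℤ) : ℤ :=
  6 - 6 * ∑ B ∈ powersetCard 2 univ, z v B - 3 * ∑ B ∈ powersetCard 3 univ, z v B
    + 2 * ∑ B ∈ powersetCard 2 univ, ∑ B' ∈ powersetCard 2 univ with Disjoint B B', z v B * z v B'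

theorem NN_eq {α : Type*} [Fintype α] (val : α → ℤ) (m : ℕ) (s : Finset (Fin 6))
    (P : Fin 6 → Prop) [DecidablePred P] (hP : ∀ i, P i ↔ i ∈ s) (hs : s.card = m) :
    NN val {i // P i} = NN val (Fin m) := by
  refine NN_congr val (Fintype.equivFinOfCardEq ?_)
  rw [Fintype.card_subtype]
  rw [← hs]
  congr 1
  ext i
  simp [hP]

theorem sum_two {α : Type*} [Fintype α] (val : α → ℤ) (B : Finset (Fin 6)) (m m' : ℕ)
    (h : B.card = m) (h' : Bᶜ.card = m') :
    ∑ q : Fin 6 → α, z (fun i => val (q i)) univ * z (fun i => val (q i)) B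
      = NN val (Fin m) * NN val (Fin m') := by
  have h1 := sum_colour val (fun i : Fin 6 => decide (i ∈ B))
  simp only [Fintype.prod_bool] at h1
  rw [NN_eq val m B (fun i => decide (i ∈ B) = true) (by simp) h,
    NN_eq val m' Bᶜ (fun i => decide (i ∈ B) = false) (by simp) h'] at h1
  rw [← h1]
  refine Finset.sum_congr rfl fun q _ => ?_
  unfold z
  have e1 : (univ.filter fun i : Fin 6 => decide (i ∈ B) = true) = B := by ext i; simp
  have e2 : (univ.filter fun i : Fin 6 => decide (i ∈ B) = false) = Bᶜ := by ext i; simp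
  rw [e1, e2]
  have e3 : ∑ i, val (q i) = ∑ i ∈ B, val (q i) + ∑ i ∈ Bᶜ, val (q i) :=
    (Finset.sum_add_sum_compl B _).symm
  rw [e3]
  beta_reduce
  split_ifs <;> first | (exfalso; omega) | norm_num

theorem sum_three {α : Type*} [Fintype α] (val : α → ℤ) (B B' : Finset (Fin 6))
    (h : B.card = 2) (h' : B'.card = 2) (hd : Disjoint B B') :
    ∑ q : Fin 6 → α, z (fun i => val (q i)) univ * (z (fun i => val (q i)) B
      * z (fun i => val (q i)) B') = NN val (Fin 2) ^ 3 := by
  classical
  set c : Fin 6 → Fin 3 := fun i => if i ∈ B then 0 else if i ∈ B' then 1 else 2 with hc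
  have hcB : ∀ i, c i = 0 ↔ i ∈ B := by
    intro i; simp only [hc]; split_ifs <;> simp_all
  have hcB' : ∀ i, c i = 1 ↔ i ∈ B' := by
    intro i; simp only [hc]
    by_cases h1 : i ∈ B
    · have : i ∉ B' := Finset.disjoint_left.1 hd h1
      simp [h1, this]
    · by_cases h2 : i ∈ B' <;> simp [h1, h2]
  have hcC : ∀ i, c i = 2 ↔ i ∈ (B ∪ B')ᶜ := by
    intro i; simp only [hc]
    by_cases h1 : i ∈ B
    · simp [h1]
    · by_cases h2 : i ∈ B' <;> simp [h1, h2]
  have hC : ((B ∪ B')ᶜ).card = 2 := by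
    rw [Finset.card_compl, Finset.card_union_of_disjoint hd, h, h']; rfl
  have h1 := sum_colour val c
  simp only [Fin.prod_univ_three] at h1
  rw [NN_eq val 2 B (fun i => c i = 0) hcB h, NN_eq val 2 B' (fun i => c i = 1) hcB' h',
    NN_eq val 2 ((B ∪ B')ᶜ) (fun i => c i = 2) hcC hC] at h1
  rw [show NN val (Fin 2) ^ 3 = NN val (Fin 2) * NN val (Fin 2) * NN val (Fin 2) by ring, ← h1]
  refine Finset.sum_congr rfl fun q _ => ?_
  unfold z
  have e1 : (univ.filter fun i : Fin 6 => c i = 0) = B := by ext i; simp [hcB]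
  have e2 : (univ.filter fun i : Fin 6 => c i = 1) = B' := by ext i; simp [hcB']
  have e3 : (univ.filter fun i : Fin 6 => c i = 2) = (B ∪ B')ᶜ := by ext i; simp [hcC]
  rw [e1, e2, e3]
  have e3 : ∑ i, val (q i) = ∑ i ∈ B, val (q i) + ∑ i ∈ B', val (q i)
      + ∑ i ∈ (B ∪ B')ᶜ, val (q i) := by
    rw [← Finset.sum_union hd, Finset.sum_add_sum_compl]
  rw [e3]
  beta_reduce
  split_ifs <;> first | (exfalso; omega) | norm_num

theorem expand {α : Type*} [Fintype α] (val : α → ℤ) :
    ∑ q : Fin 6 → α, z (fun i => val (q i)) univ * kap (fun i => val (q i))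
      = 6 * NN val (Fin 6) - 90 * (NN val (Fin 2) * NN val (Fin 4)) - 60 * NN val (Fin 3) ^ 2
        + 180 * NN val (Fin 2) ^ 3 := by
  have h6 : ∑ q : Fin 6 → α, z (fun i => val (q i)) univ = NN val (Fin 6) := rfl
  have h2 : ∑ q : Fin 6 → α, z (fun i => val (q i)) univ *
      (∑ B ∈ powersetCard 2 univ, z (fun i => val (q i)) B)
      = 15 * (NN val (Fin 2) * NN val (Fin 4)) := by
    simp_rw [Finset.mul_sum]
    rw [Finset.sum_comm]
    rw [Finset.sum_congr rfl (g := fun _ => NN val (Fin 2) * NN val (Fin 4))]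
    · rw [Finset.sum_const]
      have : (powersetCard 2 (univ : Finset (Fin 6))).card = 15 := by
        rw [Finset.card_powersetCard]; rfl
      rw [this]; simp
    · intro B hB
      have hB2 : B.card = 2 := (Finset.mem_powersetCard.1 hB).2
      refine sum_two val B 2 4 hB2 ?_
      rw [Finset.card_compl, hB2]; rfl
  have h3 : ∑ q : Fin 6 → α, z (fun i => val (q i)) univ *
      (∑ B ∈ powersetCard 3 univ, z (fun i => val (q i)) B)
      = 20 * NN val (Fin 3) ^ 2 := by
    simp_rw [Finset.mul_sum]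
    rw [Finset.sum_comm]
    rw [Finset.sum_congr rfl (g := fun _ => NN val (Fin 3) ^ 2)]
    · rw [Finset.sum_const]
      have : (powersetCard 3 (univ : Finset (Fin 6))).card = 20 := by
        rw [Finset.card_powersetCard]; rfl
      rw [this]; simp
    · intro B hB
      have hB2 : B.card = 3 := (Finset.mem_powersetCard.1 hB).2
      rw [sq]
      refine sum_two val B 3 3 hB2 ?_
      rw [Finset.card_compl, hB2]; rfl
  have h22 : ∑ q : Fin 6 → α, z (fun i => val (q i)) univ *
      (∑ B ∈ powersetCard 2 univ, ∑ B' ∈ powersetCard 2 univ with Disjoint B B',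
        z (fun i => val (q i)) B * z (fun i => val (q i)) B')
      = 90 * NN val (Fin 2) ^ 3 := by
    simp_rw [Finset.mul_sum]
    rw [Finset.sum_comm]
    have h5 : ∀ B ∈ powersetCard 2 (univ : Finset (Fin 6)), ∑ q : Fin 6 → α,
        ∑ B' ∈ powersetCard 2 univ with Disjoint B B', z (fun i => val (q i)) univ *
          (z (fun i => val (q i)) B * z (fun i => val (q i)) B')
        = ((powersetCard 2 (univ : Finset (Fin 6))).filter (fun B' => Disjoint B B')).card
          • (NN val (Fin 2) ^ 3) := by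
      intro B hB
      rw [Finset.sum_comm, ← Finset.sum_const]
      refine Finset.sum_congr rfl fun B' hB' => ?_
      rw [Finset.mem_filter, Finset.mem_powersetCard] at hB'
      exact sum_three val B B' (Finset.mem_powersetCard.1 hB).2 hB'.1.2 hB'.2
    rw [Finset.sum_congr rfl h5, ← Finset.sum_smul]
    have : ∑ B ∈ powersetCard 2 (univ : Finset (Fin 6)),
      ((powersetCard 2 (univ : Finset (Fin 6))).filter (fun B' => Disjoint B B')).card = 90 := by
      decide
    rw [this]; simp
  have h7 : ∀ q : Fin 6 → α, z (fun i => val (q i)) univ * kap (fun i => val (q i))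
      = 6 * z (fun i => val (q i)) univ
        - 6 * (z (fun i => val (q i)) univ * ∑ B ∈ powersetCard 2 univ, z (fun i => val (q i)) B)
        - 3 * (z (fun i => val (q i)) univ * ∑ B ∈ powersetCard 3 univ, z (fun i => val (q i)) B)
        + 2 * (z (fun i => val (q i)) univ *
          ∑ B ∈ powersetCard 2 univ, ∑ B' ∈ powersetCard 2 univ with Disjoint B B',
            z (fun i => val (q i)) B * z (fun i => val (q i)) B') := by
    intro q; unfold kap; ring
  simp_rw [h7]
  rw [Finset.sum_add_distrib, Finset.sum_sub_distrib, Finset.sum_sub_distrib,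
    ← Finset.mul_sum, ← Finset.mul_sum, ← Finset.mul_sum, ← Finset.mul_sum, h6, h2, h3, h22]
  ring

end Q257.CL
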