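import Mathlib

set_option autoImplicit false

namespace Q257.CL

open Finset Real Polynomial

/-- The square root of the golden ratio. -/
noncomputable def eta : ℝ := √goldenRatio

theorem eta_sq : eta ^ 2 = goldenRatio := Real.sq_sqrt goldenRatio_pos.le

theorem eta_pos : 0 < eta := Real.sqrt_pos.2 goldenRatio_pos

theorem phi_gt : (1.618 : ℝ) < goldenRatio := by
  have h : (2.236 : ℝ) < √5 := by
    rw [Real.lt_sqrt (by norm_num)]; norm_num
  unfold goldenRatio
  linarith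

theorem eta_gt : (5 / 4 : ℝ) < eta := by
  have h := phi_gt
  rw [← eta_sq] at h
  nlinarith [eta_pos]

/-- The frequencies. -/
noncomputable def fr (k : ℕ) : ℤ := ⌊eta ^ k⌋

/-- Lucas numbers. -/
def luc : ℕ → ℤ
  | 0 => 2
  | 1 => 1
  | n + 2 => luc (n + 1) + luc n

theorem luc_eq : ∀ n : ℕ, (luc n : ℝ) = goldenRatio ^ n + goldenConj ^ n
  | 0 => by simp [luc]; norm_num
  | 1 => by simp [luc, goldenRatio_add_goldenConj]
  | n + 2 => by
    rw [luc]; push_cast
    rw [luc_eq (n + 1), luc_eq n, pow_add goldenRatio n 2, pow_add goldenConj n 2,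
      goldenRatio_sq, goldenConj_sq]
    ring

theorem fr_two_mul (j : ℕ) : fr (2 * j) = ⌊goldenRatio ^ j⌋ := by
  unfold fr; rw [pow_mul, eta_sq]

theorem conj_abs_lt : |goldenConj| < 1 := by
  rw [abs_lt]
  exact ⟨neg_one_lt_goldenConj, goldenConj_neg.trans one_pos⟩

theorem floor_odd (j : ℕ) : fr (2 * (2 * j + 1)) = luc (2 * j + 1) := by
  rw [fr_two_mul, Int.floor_eq_iff, luc_eq]
  have h1 : goldenConj ^ (2 * j + 1) < 0 := Odd.pow_neg ⟨j, rfl⟩ goldenConj_neg
  have h2 : |goldenConj ^ (2 * j + 1)| < 1 := by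
    rw [abs_pow]
    exact pow_lt_one₀ (abs_nonneg _) conj_abs_lt (by omega)
  rw [abs_lt] at h2
  constructor <;> linarith [h2.1]

theorem floor_even (j : ℕ) : fr (2 * (2 * j + 2)) = luc (2 * j + 2) - 1 := by
  rw [fr_two_mul, Int.floor_eq_iff]
  push_cast
  rw [luc_eq]
  have h1 : 0 < goldenConj ^ (2 * j + 2) := Even.pow_pos ⟨j + 1, by ring⟩ goldenConj_ne_zero
  have h2 : |goldenConj ^ (2 * j + 2)| < 1 := by
    rw [abs_pow]
    exact pow_lt_one₀ (abs_nonneg _) conj_abs_lt (by omega)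
  rw [abs_lt] at h2
  constructor <;> linarith [h2.2]

/-- The relation of three consecutive even terms. -/
theorem fr_rel (s : ℕ) : fr (2 * (2 * s + 3)) = fr (2 * (2 * s + 2)) + fr (2 * (2 * s + 1)) + 1 := by
  have h3 := floor_odd (s + 1)
  rw [show 2 * (s + 1) + 1 = 2 * s + 3 by ring] at h3
  rw [h3, floor_even, floor_odd]
  have : luc (2 * s + 3) = luc (2 * s + 2) + luc (2 * s + 1) := rfl
  rw [this]; ring

theorem fr_lt (j : ℕ) : fr (2 * (j + 1)) < fr (2 * (j + 2)) := by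
  rw [fr_two_mul, fr_two_mul]
  have h : goldenRatio ^ (j + 1) + 1 ≤ goldenRatio ^ (j + 2) := by
    have h1 := goldenRatio_pow_sub_goldenRatio_pow j
    have h2 : 1 ≤ goldenRatio ^ j := one_le_pow₀ one_lt_goldenRatio.le
    linarith
  rw [Int.lt_iff_add_one_le, Int.le_floor]
  push_cast
  linarith [Int.floor_le (goldenRatio ^ (j + 1))]

theorem fr_pos (k : ℕ) : 1 ≤ fr k := by
  unfold fr
  rw [Int.le_floor]
  push_cast
  exact one_le_pow₀ (by linarith [eta_gt])

theorem fr_mono {k l : ℕ} (h : k ≤ l) : fr k ≤ fr l := by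
  unfold fr
  exact Int.floor_le_floor (pow_le_pow_right₀ (by linarith [eta_gt]) h)

theorem eta_twenty : (100 : ℝ) < eta ^ 20 := by
  rw [show (20 : ℕ) = 2 * 10 by norm_num, pow_mul, eta_sq]
  calc (100 : ℝ) < 1.618 ^ 10 := by norm_num
    _ ≤ goldenRatio ^ 10 := by gcongr; exact phi_gt.le

theorem fr_g0 (k m : ℕ) (h : m + 20 ≤ k) : 3 * fr m < fr k := by
  have h1 : eta ^ k - 1 < fr k := Int.sub_one_lt_floor _
  have h2 : (fr m : ℝ) ≤ eta ^ m := Int.floor_le _
  have h3 : eta ^ (m + 20) ≤ eta ^ k := pow_le_pow_right₀ (by linarith [eta_gt]) h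
  have h4 : 1 ≤ eta ^ m := one_le_pow₀ (by linarith [eta_gt])
  have h5 := eta_twenty
  rw [pow_add] at h3
  have h6 : (100 : ℝ) * eta ^ m ≤ eta ^ m * eta ^ 20 := by nlinarith
  have : (3 * fr m : ℝ) < fr k := by linarith
  exact_mod_cast this

theorem fr_g1 (k l m : ℕ) (hl : l ≤ k) (hne : fr k ≠ fr l) (h : m + 20 ≤ k) :
    3 * fr m < fr k - fr l := by
  have hlk : l < k := by
    rcases hl.lt_or_eq with h | h
    · exact h
    · exact (hne (by rw [h])).elim
  have h1 : eta ^ k - 1 < fr k := Int.sub_one_lt_floor _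
  have h2 : (fr m : ℝ) ≤ eta ^ m := Int.floor_le _
  have h2' : (fr l : ℝ) ≤ eta ^ l := Int.floor_le _
  have h3 : eta ^ (m + 20) ≤ eta ^ k := pow_le_pow_right₀ (by linarith [eta_gt]) h
  have h4 : 1 ≤ eta ^ m := one_le_pow₀ (by linarith [eta_gt])
  have h5 := eta_twenty
  rw [pow_add] at h3
  have h6 : (100 : ℝ) * eta ^ m ≤ eta ^ m * eta ^ 20 := by nlinarith
  have h7 : eta ^ (l + 1) ≤ eta ^ k := pow_le_pow_right₀ (by linarith [eta_gt]) hlk
  rw [pow_succ] at h7
  have h8 : eta ^ l * (5 / 4) ≤ eta ^ l * eta := by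
    have : 0 < eta ^ l := pow_pos eta_pos _
    nlinarith [eta_gt]
  have : (3 * fr m : ℝ) < fr k - fr l := by linarith
  exact_mod_cast this

/-- Even and odd part of the value of a rational polynomial at `η`. -/
theorem aeval_eta (P : ℚ[X]) : ∃ a b c d : ℚ,
    aeval eta P = (a + b * √5) + eta * (c + d * √5) ∧
    aeval (-eta) P = (a + b * √5) - eta * (c + d * √5) := by
  have h5 : √(5 : ℝ) * √5 = 5 := Real.mul_self_sqrt (by norm_num)
  have hphi : eta ^ 2 = (1 + √5) / 2 := eta_sq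
  have hpow : ∀ n : ℕ, ∃ a b c d : ℚ, eta ^ n = (a + b * √5) + eta * (c + d * √5) ∧
      (-eta) ^ n = (a + b * √5) - eta * (c + d * √5) := by
    intro n
    induction n with
    | zero => exact ⟨1, 0, 0, 0, by simp, by simp⟩
    | succ n ih =>
      obtain ⟨a, b, c, d, h1, h2⟩ := ih
      refine ⟨(c + 5 * d) / 2, (c + d) / 2, a, b, ?_, ?_⟩
      · rw [pow_succ, h1]
        push_cast
        have : (↑a + ↑b * √5 + eta * (↑c + ↑d * √5)) * eta
          = eta * (a + b * √5) + eta ^ 2 * (c + d * √5) := by ring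
        rw [this, hphi]
        linear_combination (d / 2 : ℝ) * h5
      · rw [pow_succ, h2]
        push_cast
        have : (↑a + ↑b * √5 - eta * (↑c + ↑d * √5)) * (-eta)
          = - eta * (a + b * √5) + eta ^ 2 * (c + d * √5) := by ring
        rw [this, hphi]
        linear_combination (d / 2 : ℝ) * h5
  induction P using Polynomial.induction_on' with
  | add p q hp hq =>
    obtain ⟨a, b, c, d, h1, h2⟩ := hp
    obtain ⟨a', b', c', d', h1', h2'⟩ := hq
    refine ⟨a + a', b + b', c + c', d + d', ?_, ?_⟩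
    · rw [map_add, h1, h1']; push_cast; ring
    · rw [map_add, h2, h2']; push_cast; ring
  | monomial n r =>
    obtain ⟨a, b, c, d, h1, h2⟩ := hpow n
    refine ⟨r * a, r * b, r * c, r * d, ?_, ?_⟩
    · rw [aeval_monomial, h1]
      simp only [eq_ratCast]
      push_cast; ring
    · rw [aeval_monomial, h2]
      simp only [eq_ratCast]
      push_cast; ring

theorem sqrt5_irr : Irrational √(5 : ℝ) := by
  have := Nat.Prime.irrational_sqrt (p := 5) (by norm_num)
  exact_mod_cast this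

theorem rat_sqrt5 (x y : ℚ) (h : (x : ℝ) + y * √5 = 0) : x = 0 ∧ y = 0 := by
  by_cases hy : y = 0
  · subst hy
    simp at h
    exact ⟨h, rfl⟩
  · exfalso
    apply sqrt5_irr
    refine ⟨-x / y, ?_⟩
    push_cast
    have : (y : ℝ) ≠ 0 := by exact_mod_cast hy
    field_simp
    linarith

theorem conj_root (P : ℚ[X]) (h : aeval eta P = 0) : aeval (-eta) P = 0 := by
  have h5 : √(5 : ℝ) * √5 = 5 := Real.mul_self_sqrt (by norm_num)
  have hphi : eta ^ 2 = (1 + √5) / 2 := eta_sq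
  obtain ⟨a, b, c, d, h1, h2⟩ := aeval_eta P
  rw [h] at h1
  have e1 : ((a : ℝ) + b * √5) = - (eta * (c + d * √5)) := by linarith
  have e2 : ((a : ℝ) + b * √5) ^ 2 = (1 + √5) / 2 * (c + d * √5) ^ 2 := by
    rw [e1, neg_sq, mul_pow, hphi]
  have e3 : (((a ^ 2 + 5 * b ^ 2 - (c ^ 2 + 5 * d ^ 2 + 10 * c * d) / 2 : ℚ)) : ℝ) +
      ((2 * a * b - (c ^ 2 + 5 * d ^ 2 + 2 * c * d) / 2 : ℚ) : ℝ) * √5 = 0 := by
    push_cast
    linear_combination e2 + (-b ^ 2 + d ^ 2 / 2 + c * d + d ^ 2 * √5 / 2 : ℝ) * h5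
  obtain ⟨f1, f2⟩ := rat_sqrt5 _ _ e3
  have f3 : (a ^ 2 - 5 * b ^ 2) ^ 2 + (c ^ 2 - 5 * d ^ 2) ^ 2 = 0 := by
    have g1 : a ^ 2 + 5 * b ^ 2 = (c ^ 2 + 5 * d ^ 2 + 10 * c * d) / 2 := by linarith
    have g2 : 2 * a * b = (c ^ 2 + 5 * d ^ 2 + 2 * c * d) / 2 := by linarith
    have : (a ^ 2 - 5 * b ^ 2) ^ 2 = (a ^ 2 + 5 * b ^ 2) ^ 2 - 5 * (2 * a * b) ^ 2 := by ring
    rw [this, g1, g2]; ring
  have f4 : c ^ 2 - 5 * d ^ 2 = 0 := by
    have g1 := sq_nonneg (a ^ 2 - 5 * b ^ 2)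
    have g2 := sq_nonneg (c ^ 2 - 5 * d ^ 2)
    have g3 : (c ^ 2 - 5 * d ^ 2) ^ 2 = 0 := by linarith
    exact pow_eq_zero_iff (two_ne_zero) |>.1 g3
  have f5 : ((c : ℝ) + d * √5) * (c + ((-d : ℚ) : ℝ) * √5) = 0 := by
    have : ((c : ℝ) ^ 2 - 5 * d ^ 2) = 0 := by exact_mod_cast f4
    push_cast
    linear_combination this - (d : ℝ) ^ 2 * h5
  have f6 : (c : ℝ) + d * √5 = 0 := by
    rcases mul_eq_zero.1 f5 with h | h
    · exact h
    · obtain ⟨hc, hd⟩ := rat_sqrt5 _ _ h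
      have : d = 0 := by linarith
      rw [hc, this]; simp
  rw [h2]
  rw [f6, mul_zero, add_zero] at h1
  rw [← h1, f6]; simp

end Q257.CL
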