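import Pool.Agent.Q257.CL.Pairs

set_option autoImplicit false

namespace Q257.CL

open Finset

theorem z_pair (v : Fin 6 → ℤ) (i j : Fin 6) (h : i ≠ j) :
    z v {i, j} = if v i + v j = 0 then 1 else 0 := by
  unfold z
  rw [Finset.sum_pair h]

theorem kap_matched (v : Fin 6 → ℤ) (h01 : v 0 + v 1 = 0) (h23 : v 2 + v 3 = 0)
    (h45 : v 4 + v 5 = 0) (h3 : ∑ B ∈ powersetCard 3 univ, z v B = 0) : 0 ≤ kap v := by
  have e01 : z v {0, 1} = 1 := by rw [z_pair _ _ _ (by decide), if_pos h01]
  have e23 : z v {2, 3} = 1 := by rw [z_pair _ _ _ (by decide), if_pos h23]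
  have e45 : z v {4, 5} = 1 := by rw [z_pair _ _ _ (by decide), if_pos h45]

  have e13 : z v {1, 3} = z v {0, 2} := by
    rw [z_pair _ _ _ (by decide), z_pair _ _ _ (by decide)]
    split_ifs <;> first | rfl | (exfalso; omega)
  have e12 : z v {1, 2} = z v {0, 3} := by
    rw [z_pair _ _ _ (by decide), z_pair _ _ _ (by decide)]
    split_ifs <;> first | rfl | (exfalso; omega)
  have e15 : z v {1, 5} = z v {0, 4} := by
    rw [z_pair _ _ _ (by decide), z_pair _ _ _ (by decide)]
    split_ifs <;> first | rfl | (exfalso; omega)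
  have e14 : z v {1, 4} = z v {0, 5} := by
    rw [z_pair _ _ _ (by decide), z_pair _ _ _ (by decide)]
    split_ifs <;> first | rfl | (exfalso; omega)
  have e35 : z v {3, 5} = z v {2, 4} := by
    rw [z_pair _ _ _ (by decide), z_pair _ _ _ (by decide)]
    split_ifs <;> first | rfl | (exfalso; omega)
  have e34 : z v {3, 4} = z v {2, 5} := by
    rw [z_pair _ _ _ (by decide), z_pair _ _ _ (by decide)]
    split_ifs <;> first | rfl | (exfalso; omega)
  have hsq : ∀ B, z v B * z v B = z v B := by
    intro B; unfold z; split_ifs <;> norm_num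
  unfold kap
  rw [h3, sum_pc2, r2_eq, e01, e23, e45, e13, e12, e15, e14, e35, e34]
  have sa := hsq {0, 2}
  have na := z_nonneg v {0, 2}
  have sb := hsq {0, 3}
  have nb := z_nonneg v {0, 3}
  have sc := hsq {0, 4}
  have nc := z_nonneg v {0, 4}
  have sd := hsq {0, 5}
  have nd := z_nonneg v {0, 5}
  have se := hsq {2, 4}
  have ne := z_nonneg v {2, 4}
  have sf := hsq {2, 5}
  have nf := z_nonneg v {2, 5}
  generalize z v {0, 2} = a at *
  generalize z v {0, 3} = b at *
  generalize z v {0, 4} = c at *
  generalize z v {0, 5} = d at *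
  generalize z v {2, 4} = e at *
  generalize z v {2, 5} = f at *
  have pab := mul_nonneg na nb
  have pac := mul_nonneg na nc
  have pad := mul_nonneg na nd
  have pae := mul_nonneg na ne
  have paf := mul_nonneg na nf
  have pbc := mul_nonneg nb nc
  have pbd := mul_nonneg nb nd
  have pbe := mul_nonneg nb ne
  have pbf := mul_nonneg nb nf
  have pcd := mul_nonneg nc nd
  have pce := mul_nonneg nc ne
  have pcf := mul_nonneg nc nf
  have pde := mul_nonneg nd ne
  have pdf := mul_nonneg nd nf
  have pef := mul_nonneg ne nf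
  linarith

end Q257.CL
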