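import Mathlib

set_option autoImplicit false

namespace Q257.CL

open MeasureTheory Finset

/-- The signed index set. -/
abbrev Ix (n : ℕ) : Type := Fin n × Bool

/-- The signed frequency. -/
def val (a : ℕ → ℤ) {n : ℕ} (x : Ix n) : ℤ := (if x.2 then 1 else -1) * a (x.1 + 1)

/-- The lacunary cosine sum. -/
noncomputable def S (a : ℕ → ℤ) (n : ℕ) (ω : ℝ) : ℝ :=
  ∑ k ∈ Finset.Icc 1 n, Real.cos (2 * Real.pi * a k * ω)

/-- Zero-sum indicator. -/
def zs {α ι : Type*} [Fintype ι] (val : α → ℤ) (q : ι → α) : ℤ :=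
  if ∑ i, val (q i) = 0 then 1 else 0

/-- Number of zero-sum tuples. -/
def NN {α : Type*} [Fintype α] (val : α → ℤ) (ι : Type*) [Fintype ι] [DecidableEq ι] : ℤ :=
  ∑ q : ι → α, zs val q

theorem integral_char (K : ℤ) :
    ∫ ω in (0:ℝ)..1, Complex.exp (2 * Real.pi * Complex.I * K * ω) = if K = 0 then 1 else 0 := by
  split_ifs with h
  · subst h; simp
  · have hc : (2 * Real.pi * Complex.I * K : ℂ) ≠ 0 := by
      simp [Complex.ofReal_ne_zero.2 Real.pi_ne_zero, h]
    rw [integral_exp_mul_complex hc]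
    have : Complex.exp (2 * Real.pi * Complex.I * K * (1 : ℝ)) = 1 := by
      have := Complex.exp_int_mul_two_pi_mul_I K
      rw [← this]; congr 1; push_cast; ring
    rw [this]
    simp

theorem S_eq (a : ℕ → ℤ) (n : ℕ) (ω : ℝ) :
    (S a n ω : ℂ) = (1 / 2) * ∑ x : Ix n, Complex.exp (2 * Real.pi * Complex.I * val a x * ω) := by
  have h1 : S a n ω = ∑ k : Fin n, Real.cos (2 * Real.pi * a (k + 1) * ω) := by
    unfold S
    rw [Fin.sum_univ_eq_sum_range (fun k => Real.cos (2 * Real.pi * a (k + 1) * ω)) n]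
    rw [Finset.range_eq_Ico, Finset.sum_Ico_add' (fun k => Real.cos (2 * Real.pi * a k * ω)) 0 n 1]
    rfl
  rw [h1, Fintype.sum_prod_type]
  push_cast
  rw [Finset.mul_sum]
  refine Finset.sum_congr rfl fun k _ => ?_
  simp only [Fintype.sum_bool, val, if_true, Bool.false_eq_true, if_false]
  rw [Complex.cos]
  have e1 : (2 * Real.pi * (a (k + 1) : ℂ) * ω * Complex.I) =
    2 * Real.pi * Complex.I * ((1 * a (k + 1) : ℤ) : ℂ) * ω := by push_cast; ring
  have e2 : (-(2 * Real.pi * (a (k + 1) : ℂ) * ω) * Complex.I) =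
    2 * Real.pi * Complex.I * ((-1 * a (k + 1) : ℤ) : ℂ) * ω := by push_cast; ring
  rw [e1, e2]
  ring

theorem S_pow (a : ℕ → ℤ) (n : ℕ) (m : ℕ) (ω : ℝ) :
    ((S a n ω ^ m : ℝ) : ℂ) = (1 / 2) ^ m * ∑ q : Fin m → Ix n,
      Complex.exp (2 * Real.pi * Complex.I * ((∑ i, val a (q i) : ℤ) : ℂ) * ω) := by
  push_cast
  rw [S_eq, mul_pow]
  congr 1
  rw [Fintype.sum_pow]
  refine Finset.sum_congr rfl fun q _ => ?_
  rw [← Complex.exp_sum]
  congr 1
  rw [Finset.mul_sum, Finset.sum_mul]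

theorem continuous_S (a : ℕ → ℤ) (n : ℕ) : Continuous (S a n) := by
  unfold S
  fun_prop

theorem moment (a : ℕ → ℤ) (n : ℕ) (m : ℕ) :
    ∫ ω in Set.Icc (0:ℝ) 1, S a n ω ^ m = (NN (val a (n := n)) (Fin m) : ℝ) / 2 ^ m := by
  have h0 : ∫ ω in Set.Icc (0:ℝ) 1, S a n ω ^ m = ∫ ω in (0:ℝ)..1, S a n ω ^ m := by
    rw [integral_Icc_eq_integral_Ioc, intervalIntegral.integral_of_le zero_le_one]
  rw [h0]
  apply Complex.ofReal_injective
  rw [← intervalIntegral.integral_ofReal]
  simp_rw [S_pow]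
  rw [intervalIntegral.integral_const_mul, intervalIntegral.integral_finsetSum]
  · simp_rw [integral_char]
    unfold NN zs
    push_cast
    rw [one_div, inv_pow, div_eq_inv_mul]
    congr 1
    refine Finset.sum_congr rfl fun q _ => ?_
    split_ifs <;> simp
  · intro q _
    apply Continuous.intervalIntegrable
    fun_prop

theorem NN_congr {α : Type*} [Fintype α] (val : α → ℤ) {ι κ : Type*} [Fintype ι] [DecidableEq ι]
    [Fintype κ] [DecidableEq κ] (e : ι ≃ κ) : NN val ι = NN val κ := by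
  unfold NN
  refine Fintype.sum_equiv (e.arrowCongr (Equiv.refl α)) _ _ fun q => ?_
  unfold zs
  have : ∑ i, val (q i) = ∑ i, val ((e.arrowCongr (Equiv.refl α)) q i) := by
    refine Fintype.sum_equiv e _ _ fun i => ?_
    simp [Equiv.arrowCongr]
  rw [this]

/-- Splitting along a colouring. -/
theorem sum_colour {α : Type*} [Fintype α] (val : α → ℤ) {ι K : Type*} [Fintype ι] [DecidableEq ι]
    [Fintype K] [DecidableEq K] (c : ι → K) :
    ∑ q : ι → α, ∏ k : K, (if ∑ i with c i = k, val (q i) = 0 then (1 : ℤ) else 0)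
      = ∏ k : K, NN val {i // c i = k} := by
  unfold NN
  rw [Finset.prod_univ_sum]
  let e : (ι → α) ≃ ((k : K) → {i // c i = k} → α) :=
    ((Equiv.sigmaFiberEquiv c).symm.arrowCongr (Equiv.refl α)).trans
      (Equiv.piCurry (fun _ _ => α))
  rw [Fintype.piFinset_univ]
  refine Fintype.sum_equiv e _ _ fun q => ?_
  refine Finset.prod_congr rfl fun k _ => ?_
  unfold zs
  have : ∑ i with c i = k, val (q i) = ∑ i, val (e q k i) := by
    rw [Finset.sum_subtype (Finset.univ.filter fun i => c i = k) (p := fun i => c i = k)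
      (by intro x; simp)]
    rfl
  rw [this]

end Q257.CL
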