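import Pool.Agent.Q257.CL.Expand

set_option autoImplicit false

namespace Q257.CL

open Finset

theorem z_nonneg (v : Fin 6 → ℤ) (B : Finset (Fin 6)) : 0 ≤ z v B := by
  unfold z; split_ifs <;> norm_num

theorem z_perm (v : Fin 6 → ℤ) (τ : Equiv.Perm (Fin 6)) (B : Finset (Fin 6)) :
    z (v ∘ τ) B = z v (B.map τ.toEmbedding) := by
  unfold z
  rw [Finset.sum_map]
  rfl

theorem sum_perm (τ : Equiv.Perm (Fin 6)) (m : ℕ) (g : Finset (Fin 6) → ℤ) :
    ∑ B ∈ powersetCard m univ, g (B.map τ.toEmbedding) = ∑ B ∈ powersetCard m univ, g B := by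
  refine Finset.sum_equiv (Equiv.finsetCongr τ) (fun B => ?_) (fun B _ => ?_)
  · simp [Finset.mem_powersetCard]
  · rfl

theorem kap_perm (v : Fin 6 → ℤ) (τ : Equiv.Perm (Fin 6)) : kap (v ∘ τ) = kap v := by
  unfold kap
  simp only [z_perm]
  rw [sum_perm τ 2 (fun B => z v B), sum_perm τ 3 (fun B => z v B)]
  congr 2
  have h := sum_perm τ 2 (fun B => ∑ B' ∈ powersetCard 2 univ with Disjoint B B', z v B * z v B')
  rw [← h]
  refine Finset.sum_congr rfl fun B hB => ?_
  simp only [Finset.sum_filter]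
  rw [← sum_perm τ 2 (fun B' => if Disjoint (B.map τ.toEmbedding) B' then
    z v (B.map τ.toEmbedding) * z v B' else 0)]
  refine Finset.sum_congr rfl fun B' hB' => ?_
  simp only [Finset.disjoint_map]

theorem pc2 : powersetCard 2 (univ : Finset (Fin 6)) = {{0, 1}, {0, 2}, {0, 3}, {0, 4}, {0, 5}, {1, 2}, {1, 3}, {1, 4}, {1, 5}, {2, 3}, {2, 4}, {2, 5}, {3, 4}, {3, 5}, {4, 5}} := by
  decide

theorem sum_pc2 (g : Finset (Fin 6) → ℤ) : ∑ B ∈ powersetCard 2 univ, g B =
    g {0, 1} + g {0, 2} + g {0, 3} + g {0, 4} + g {0, 5} + g {1, 2} + g {1, 3} + g {1, 4} + g {1, 5} + g {2, 3} + g {2, 4} + g {2, 5} + g {3, 4} + g {3, 5} + g {4, 5} := by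
  rw [pc2]
  rw [Finset.sum_insert (by decide)]
  rw [Finset.sum_insert (by decide)]
  rw [Finset.sum_insert (by decide)]
  rw [Finset.sum_insert (by decide)]
  rw [Finset.sum_insert (by decide)]
  rw [Finset.sum_insert (by decide)]
  rw [Finset.sum_insert (by decide)]
  rw [Finset.sum_insert (by decide)]
  rw [Finset.sum_insert (by decide)]
  rw [Finset.sum_insert (by decide)]
  rw [Finset.sum_insert (by decide)]
  rw [Finset.sum_insert (by decide)]
  rw [Finset.sum_insert (by decide)]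
  rw [Finset.sum_insert (by decide)]
  rw [Finset.sum_singleton]
  ring

theorem d01 (g : Finset (Fin 6) → ℤ) :
    ∑ B' ∈ powersetCard 2 univ with Disjoint ({0, 1} : Finset (Fin 6)) B', g B' =
    g {2, 3} + g {2, 4} + g {2, 5} + g {3, 4} + g {3, 5} + g {4, 5} := by
  have : (powersetCard 2 (univ : Finset (Fin 6))).filter (fun B' => Disjoint ({0, 1} : Finset (Fin 6)) B')
      = {{2, 3}, {2, 4}, {2, 5}, {3, 4}, {3, 5}, {4, 5}} := by decide
  rw [this]
  rw [Finset.sum_insert (by decide)]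
  rw [Finset.sum_insert (by decide)]
  rw [Finset.sum_insert (by decide)]
  rw [Finset.sum_insert (by decide)]
  rw [Finset.sum_insert (by decide)]
  rw [Finset.sum_singleton]
  ring

theorem d02 (g : Finset (Fin 6) → ℤ) :
    ∑ B' ∈ powersetCard 2 univ with Disjoint ({0, 2} : Finset (Fin 6)) B', g B' =
    g {1, 3} + g {1, 4} + g {1, 5} + g {3, 4} + g {3, 5} + g {4, 5} := by
  have : (powersetCard 2 (univ : Finset (Fin 6))).filter (fun B' => Disjoint ({0, 2} : Finset (Fin 6)) B')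
      = {{1, 3}, {1, 4}, {1, 5}, {3, 4}, {3, 5}, {4, 5}} := by decide
  rw [this]
  rw [Finset.sum_insert (by decide)]
  rw [Finset.sum_insert (by decide)]
  rw [Finset.sum_insert (by decide)]
  rw [Finset.sum_insert (by decide)]
  rw [Finset.sum_insert (by decide)]
  rw [Finset.sum_singleton]
  ring

theorem d03 (g : Finset (Fin 6) → ℤ) :
    ∑ B' ∈ powersetCard 2 univ with Disjoint ({0, 3} : Finset (Fin 6)) B', g B' =
    g {1, 2} + g {1, 4} + g {1, 5} + g {2, 4} + g {2, 5} + g {4, 5} := by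
  have : (powersetCard 2 (univ : Finset (Fin 6))).filter (fun B' => Disjoint ({0, 3} : Finset (Fin 6)) B')
      = {{1, 2}, {1, 4}, {1, 5}, {2, 4}, {2, 5}, {4, 5}} := by decide
  rw [this]
  rw [Finset.sum_insert (by decide)]
  rw [Finset.sum_insert (by decide)]
  rw [Finset.sum_insert (by decide)]
  rw [Finset.sum_insert (by decide)]
  rw [Finset.sum_insert (by decide)]
  rw [Finset.sum_singleton]
  ring

theorem d04 (g : Finset (Fin 6) → ℤ) :
    ∑ B' ∈ powersetCard 2 univ with Disjoint ({0, 4} : Finset (Fin 6)) B', g B' =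
    g {1, 2} + g {1, 3} + g {1, 5} + g {2, 3} + g {2, 5} + g {3, 5} := by
  have : (powersetCard 2 (univ : Finset (Fin 6))).filter (fun B' => Disjoint ({0, 4} : Finset (Fin 6)) B')
      = {{1, 2}, {1, 3}, {1, 5}, {2, 3}, {2, 5}, {3, 5}} := by decide
  rw [this]
  rw [Finset.sum_insert (by decide)]
  rw [Finset.sum_insert (by decide)]
  rw [Finset.sum_insert (by decide)]
  rw [Finset.sum_insert (by decide)]
  rw [Finset.sum_insert (by decide)]
  rw [Finset.sum_singleton]
  ring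

theorem d05 (g : Finset (Fin 6) → ℤ) :
    ∑ B' ∈ powersetCard 2 univ with Disjoint ({0, 5} : Finset (Fin 6)) B', g B' =
    g {1, 2} + g {1, 3} + g {1, 4} + g {2, 3} + g {2, 4} + g {3, 4} := by
  have : (powersetCard 2 (univ : Finset (Fin 6))).filter (fun B' => Disjoint ({0, 5} : Finset (Fin 6)) B')
      = {{1, 2}, {1, 3}, {1, 4}, {2, 3}, {2, 4}, {3, 4}} := by decide
  rw [this]
  rw [Finset.sum_insert (by decide)]
  rw [Finset.sum_insert (by decide)]
  rw [Finset.sum_insert (by decide)]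
  rw [Finset.sum_insert (by decide)]
  rw [Finset.sum_insert (by decide)]
  rw [Finset.sum_singleton]
  ring

theorem d12 (g : Finset (Fin 6) → ℤ) :
    ∑ B' ∈ powersetCard 2 univ with Disjoint ({1, 2} : Finset (Fin 6)) B', g B' =
    g {0, 3} + g {0, 4} + g {0, 5} + g {3, 4} + g {3, 5} + g {4, 5} := by
  have : (powersetCard 2 (univ : Finset (Fin 6))).filter (fun B' => Disjoint ({1, 2} : Finset (Fin 6)) B')
      = {{0, 3}, {0, 4}, {0, 5}, {3, 4}, {3, 5}, {4, 5}} := by decide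
  rw [this]
  rw [Finset.sum_insert (by decide)]
  rw [Finset.sum_insert (by decide)]
  rw [Finset.sum_insert (by decide)]
  rw [Finset.sum_insert (by decide)]
  rw [Finset.sum_insert (by decide)]
  rw [Finset.sum_singleton]
  ring

theorem d13 (g : Finset (Fin 6) → ℤ) :
    ∑ B' ∈ powersetCard 2 univ with Disjoint ({1, 3} : Finset (Fin 6)) B', g B' =
    g {0, 2} + g {0, 4} + g {0, 5} + g {2, 4} + g {2, 5} + g {4, 5} := by
  have : (powersetCard 2 (univ : Finset (Fin 6))).filter (fun B' => Disjoint ({1, 3} : Finset (Fin 6)) B')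
      = {{0, 2}, {0, 4}, {0, 5}, {2, 4}, {2, 5}, {4, 5}} := by decide
  rw [this]
  rw [Finset.sum_insert (by decide)]
  rw [Finset.sum_insert (by decide)]
  rw [Finset.sum_insert (by decide)]
  rw [Finset.sum_insert (by decide)]
  rw [Finset.sum_insert (by decide)]
  rw [Finset.sum_singleton]
  ring

theorem d14 (g : Finset (Fin 6) → ℤ) :
    ∑ B' ∈ powersetCard 2 univ with Disjoint ({1, 4} : Finset (Fin 6)) B', g B' =
    g {0, 2} + g {0, 3} + g {0, 5} + g {2, 3} + g {2, 5} + g {3, 5} := by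
  have : (powersetCard 2 (univ : Finset (Fin 6))).filter (fun B' => Disjoint ({1, 4} : Finset (Fin 6)) B')
      = {{0, 2}, {0, 3}, {0, 5}, {2, 3}, {2, 5}, {3, 5}} := by decide
  rw [this]
  rw [Finset.sum_insert (by decide)]
  rw [Finset.sum_insert (by decide)]
  rw [Finset.sum_insert (by decide)]
  rw [Finset.sum_insert (by decide)]
  rw [Finset.sum_insert (by decide)]
  rw [Finset.sum_singleton]
  ring

theorem d15 (g : Finset (Fin 6) → ℤ) :
    ∑ B' ∈ powersetCard 2 univ with Disjoint ({1, 5} : Finset (Fin 6)) B', g B' =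
    g {0, 2} + g {0, 3} + g {0, 4} + g {2, 3} + g {2, 4} + g {3, 4} := by
  have : (powersetCard 2 (univ : Finset (Fin 6))).filter (fun B' => Disjoint ({1, 5} : Finset (Fin 6)) B')
      = {{0, 2}, {0, 3}, {0, 4}, {2, 3}, {2, 4}, {3, 4}} := by decide
  rw [this]
  rw [Finset.sum_insert (by decide)]
  rw [Finset.sum_insert (by decide)]
  rw [Finset.sum_insert (by decide)]
  rw [Finset.sum_insert (by decide)]
  rw [Finset.sum_insert (by decide)]
  rw [Finset.sum_singleton]
  ring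

theorem d23 (g : Finset (Fin 6) → ℤ) :
    ∑ B' ∈ powersetCard 2 univ with Disjoint ({2, 3} : Finset (Fin 6)) B', g B' =
    g {0, 1} + g {0, 4} + g {0, 5} + g {1, 4} + g {1, 5} + g {4, 5} := by
  have : (powersetCard 2 (univ : Finset (Fin 6))).filter (fun B' => Disjoint ({2, 3} : Finset (Fin 6)) B')
      = {{0, 1}, {0, 4}, {0, 5}, {1, 4}, {1, 5}, {4, 5}} := by decide
  rw [this]
  rw [Finset.sum_insert (by decide)]
  rw [Finset.sum_insert (by decide)]
  rw [Finset.sum_insert (by decide)]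
  rw [Finset.sum_insert (by decide)]
  rw [Finset.sum_insert (by decide)]
  rw [Finset.sum_singleton]
  ring

theorem d24 (g : Finset (Fin 6) → ℤ) :
    ∑ B' ∈ powersetCard 2 univ with Disjoint ({2, 4} : Finset (Fin 6)) B', g B' =
    g {0, 1} + g {0, 3} + g {0, 5} + g {1, 3} + g {1, 5} + g {3, 5} := by
  have : (powersetCard 2 (univ : Finset (Fin 6))).filter (fun B' => Disjoint ({2, 4} : Finset (Fin 6)) B')
      = {{0, 1}, {0, 3}, {0, 5}, {1, 3}, {1, 5}, {3, 5}} := by decide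
  rw [this]
  rw [Finset.sum_insert (by decide)]
  rw [Finset.sum_insert (by decide)]
  rw [Finset.sum_insert (by decide)]
  rw [Finset.sum_insert (by decide)]
  rw [Finset.sum_insert (by decide)]
  rw [Finset.sum_singleton]
  ring

theorem d25 (g : Finset (Fin 6) → ℤ) :
    ∑ B' ∈ powersetCard 2 univ with Disjoint ({2, 5} : Finset (Fin 6)) B', g B' =
    g {0, 1} + g {0, 3} + g {0, 4} + g {1, 3} + g {1, 4} + g {3, 4} := by
  have : (powersetCard 2 (univ : Finset (Fin 6))).filter (fun B' => Disjoint ({2, 5} : Finset (Fin 6)) B')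
      = {{0, 1}, {0, 3}, {0, 4}, {1, 3}, {1, 4}, {3, 4}} := by decide
  rw [this]
  rw [Finset.sum_insert (by decide)]
  rw [Finset.sum_insert (by decide)]
  rw [Finset.sum_insert (by decide)]
  rw [Finset.sum_insert (by decide)]
  rw [Finset.sum_insert (by decide)]
  rw [Finset.sum_singleton]
  ring

theorem d34 (g : Finset (Fin 6) → ℤ) :
    ∑ B' ∈ powersetCard 2 univ with Disjoint ({3, 4} : Finset (Fin 6)) B', g B' =
    g {0, 1} + g {0, 2} + g {0, 5} + g {1, 2} + g {1, 5} + g {2, 5} := by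
  have : (powersetCard 2 (univ : Finset (Fin 6))).filter (fun B' => Disjoint ({3, 4} : Finset (Fin 6)) B')
      = {{0, 1}, {0, 2}, {0, 5}, {1, 2}, {1, 5}, {2, 5}} := by decide
  rw [this]
  rw [Finset.sum_insert (by decide)]
  rw [Finset.sum_insert (by decide)]
  rw [Finset.sum_insert (by decide)]
  rw [Finset.sum_insert (by decide)]
  rw [Finset.sum_insert (by decide)]
  rw [Finset.sum_singleton]
  ring

theorem d35 (g : Finset (Fin 6) → ℤ) :
    ∑ B' ∈ powersetCard 2 univ with Disjoint ({3, 5} : Finset (Fin 6)) B', g B' =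
    g {0, 1} + g {0, 2} + g {0, 4} + g {1, 2} + g {1, 4} + g {2, 4} := by
  have : (powersetCard 2 (univ : Finset (Fin 6))).filter (fun B' => Disjoint ({3, 5} : Finset (Fin 6)) B')
      = {{0, 1}, {0, 2}, {0, 4}, {1, 2}, {1, 4}, {2, 4}} := by decide
  rw [this]
  rw [Finset.sum_insert (by decide)]
  rw [Finset.sum_insert (by decide)]
  rw [Finset.sum_insert (by decide)]
  rw [Finset.sum_insert (by decide)]
  rw [Finset.sum_insert (by decide)]
  rw [Finset.sum_singleton]
  ring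

theorem d45 (g : Finset (Fin 6) → ℤ) :
    ∑ B' ∈ powersetCard 2 univ with Disjoint ({4, 5} : Finset (Fin 6)) B', g B' =
    g {0, 1} + g {0, 2} + g {0, 3} + g {1, 2} + g {1, 3} + g {2, 3} := by
  have : (powersetCard 2 (univ : Finset (Fin 6))).filter (fun B' => Disjoint ({4, 5} : Finset (Fin 6)) B')
      = {{0, 1}, {0, 2}, {0, 3}, {1, 2}, {1, 3}, {2, 3}} := by decide
  rw [this]
  rw [Finset.sum_insert (by decide)]
  rw [Finset.sum_insert (by decide)]
  rw [Finset.sum_insert (by decide)]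
  rw [Finset.sum_insert (by decide)]
  rw [Finset.sum_insert (by decide)]
  rw [Finset.sum_singleton]
  ring

theorem r2_eq (v : Fin 6 → ℤ) :
    ∑ B ∈ powersetCard 2 univ, ∑ B' ∈ powersetCard 2 univ with Disjoint B B', z v B * z v B' =
    z v {0, 1} * (z v {2, 3} + z v {2, 4} + z v {2, 5} + z v {3, 4} + z v {3, 5} + z v {4, 5}) +
    z v {0, 2} * (z v {1, 3} + z v {1, 4} + z v {1, 5} + z v {3, 4} + z v {3, 5} + z v {4, 5}) +
    z v {0, 3} * (z v {1, 2} + z v {1, 4} + z v {1, 5} + z v {2, 4} + z v {2, 5} + z v {4, 5}) +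
    z v {0, 4} * (z v {1, 2} + z v {1, 3} + z v {1, 5} + z v {2, 3} + z v {2, 5} + z v {3, 5}) +
    z v {0, 5} * (z v {1, 2} + z v {1, 3} + z v {1, 4} + z v {2, 3} + z v {2, 4} + z v {3, 4}) +
    z v {1, 2} * (z v {0, 3} + z v {0, 4} + z v {0, 5} + z v {3, 4} + z v {3, 5} + z v {4, 5}) +
    z v {1, 3} * (z v {0, 2} + z v {0, 4} + z v {0, 5} + z v {2, 4} + z v {2, 5} + z v {4, 5}) +
    z v {1, 4} * (z v {0, 2} + z v {0, 3} + z v {0, 5} + z v {2, 3} + z v {2, 5} + z v {3, 5}) +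
    z v {1, 5} * (z v {0, 2} + z v {0, 3} + z v {0, 4} + z v {2, 3} + z v {2, 4} + z v {3, 4}) +
    z v {2, 3} * (z v {0, 1} + z v {0, 4} + z v {0, 5} + z v {1, 4} + z v {1, 5} + z v {4, 5}) +
    z v {2, 4} * (z v {0, 1} + z v {0, 3} + z v {0, 5} + z v {1, 3} + z v {1, 5} + z v {3, 5}) +
    z v {2, 5} * (z v {0, 1} + z v {0, 3} + z v {0, 4} + z v {1, 3} + z v {1, 4} + z v {3, 4}) +
    z v {3, 4} * (z v {0, 1} + z v {0, 2} + z v {0, 5} + z v {1, 2} + z v {1, 5} + z v {2, 5}) +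
    z v {3, 5} * (z v {0, 1} + z v {0, 2} + z v {0, 4} + z v {1, 2} + z v {1, 4} + z v {2, 4}) +
    z v {4, 5} * (z v {0, 1} + z v {0, 2} + z v {0, 3} + z v {1, 2} + z v {1, 3} + z v {2, 3}) := by
  rw [sum_pc2]
  simp only [← Finset.mul_sum]
  rw [d01, d02, d03, d04, d05, d12, d13, d14, d15, d23, d24, d25, d34, d35, d45]

end Q257.CL
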