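import Pool.Agent.Q257.CL.Matched

set_option autoImplicit false

namespace Q257.CL

open Finset

section
variable {α : Type*} (val : α → ℤ) (idx : α → ℕ) (D : ℕ)

/-- Positions reachable from one position by near steps and determined steps. -/
inductive Reach (p : Fin 6 → α) : Finset (Fin 6) → Prop
  | single (i : Fin 6) : Reach p {i}
  | near (A : Finset (Fin 6)) (i j : Fin 6) : Reach p A → i ∈ A →
      idx (p i) ≤ idx (p j) + D → idx (p j) ≤ idx (p i) + D → Reach p (insert j A)
  | det (A B : Finset (Fin 6)) (j : Fin 6) : Reach p A → B ⊆ A →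
      val (p j) = - ∑ i ∈ B, val (p i) → Reach p (insert j A)

/-- Lacunarity of a signed frequency family. -/
structure Lac : Prop where
  ne : ∀ x, val x ≠ 0
  g0 : ∀ x y, idx y + D ≤ idx x → 3 * |val y| < |val x|
  mono : ∀ x y, idx y ≤ idx x → |val y| ≤ |val x|
  g1 : ∀ x y z, idx y ≤ idx x → |val x| ≠ |val y| → idx z + D ≤ idx x →
    3 * |val z| < |val x| - |val y|

variable {val idx D}

theorem Lac.near3 (hL : Lac val idx D) (x y z : α) (h : val x + val y + val z = 0) :
    idx x ≤ idx y + D := by
  by_contra hc
  push Not at hc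
  have nx := hL.ne x
  have ny := hL.ne y
  have nz := hL.ne z
  have g1 := hL.g1 x z y
  have g1' := hL.g1 z x y
  have m := hL.mono x y (by omega)
  rcases abs_cases (val x) with ⟨ax, _⟩ | ⟨ax, _⟩ <;>
  rcases abs_cases (val y) with ⟨ay, _⟩ | ⟨ay, _⟩ <;>
  rcases abs_cases (val z) with ⟨az, _⟩ | ⟨az, _⟩ <;>
  rw [ax, ay, az] at g1 g1' <;> rw [ax, ay] at m <;> omega

theorem Lac.near4 (hL : Lac val idx D) (x y z w : α) (h : val x + val y + val z + val w = 0)
    (h1 : idx w ≤ idx z) (_h2 : idx z ≤ idx y) (h3 : idx y ≤ idx x) (hp : val x + val y ≠ 0) :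
    idx x ≤ idx z + D := by
  by_contra hc
  push Not at hc
  have nx := hL.ne x
  have ny := hL.ne y
  have nz := hL.ne z
  have g1 := hL.g1 x y z
  have g0 := hL.g0 x z (by omega)
  have m := hL.mono z w h1
  rcases abs_cases (val x) with ⟨ax, _⟩ | ⟨ax, _⟩ <;>
  rcases abs_cases (val y) with ⟨ay, _⟩ | ⟨ay, _⟩ <;>
  rcases abs_cases (val z) with ⟨az, _⟩ | ⟨az, _⟩ <;>
  rcases abs_cases (val w) with ⟨aw, _⟩ | ⟨aw, _⟩ <;>
  rw [ax, ay, az] at g1 <;> rw [ax, az] at g0 <;> rw [az, aw] at m <;> omega

theorem reach_pair (p : Fin 6 → α) (A : Finset (Fin 6)) (i j : Fin 6) (hA : Reach val idx D p A)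
    (hi : i ∈ A) (h : val (p i) + val (p j) = 0) : Reach val idx D p (insert j A) := by
  refine Reach.det A {i} j hA (by simpa using hi) ?_
  rw [Finset.sum_singleton]; omega

theorem near_triple (hL : Lac val idx D) (p : Fin 6 → α) (T : Finset (Fin 6)) (hT : T.card = 3)
    (hz : ∑ i ∈ T, val (p i) = 0) : ∀ s ∈ T, ∀ t ∈ T, idx (p s) ≤ idx (p t) + D := by
  obtain ⟨a, b, c, hab, hac, hbc, rfl⟩ := Finset.card_eq_three.1 hT
  rw [Finset.sum_insert (by simp [hab, hac]), Finset.sum_pair hbc] at hz
  have h1 := hL.near3 (p a) (p b) (p c) (by omega)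
  have h2 := hL.near3 (p b) (p a) (p c) (by omega)
  have h3 := hL.near3 (p a) (p c) (p b) (by omega)
  have h4 := hL.near3 (p c) (p a) (p b) (by omega)
  have h5 := hL.near3 (p b) (p c) (p a) (by omega)
  have h6 := hL.near3 (p c) (p b) (p a) (by omega)
  intro s hs t ht
  simp only [Finset.mem_insert, Finset.mem_singleton] at hs ht
  rcases hs with rfl | rfl | rfl <;> rcases ht with rfl | rfl | rfl <;> omega

theorem reach_triple (hL : Lac val idx D) (p : Fin 6 → α) (A : Finset (Fin 6))
    (hA : Reach val idx D p A) (T : Finset (Fin 6)) (hT : T.card = 3)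
    (hz : ∑ i ∈ T, val (p i) = 0) (i : Fin 6) (hi : i ∈ A) (hiT : i ∈ T) :
    Reach val idx D p (A ∪ T) := by
  have hn := near_triple hL p T hT hz
  have key : ∀ T' : Finset (Fin 6), T' ⊆ T → Reach val idx D p (A ∪ T') := by
    intro T'
    induction T' using Finset.induction_on with
    | empty => intro _; simpa using hA
    | insert j T' hj ih =>
      intro hs
      rw [Finset.union_insert]
      have hjT : j ∈ T := hs (Finset.mem_insert_self _ _)
      refine Reach.near _ i j (ih fun x hx => hs (Finset.mem_insert_of_mem hx)) ?_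
        (hn i hiT j hjT) (hn j hjT i hiT)
      exact Finset.mem_union_left _ hi
  exact key T (Finset.Subset.refl _)

theorem sort4 (W : Finset (Fin 6)) (hW : W.card = 4) (f : Fin 6 → ℕ) :
    ∃ i j k l, i ≠ j ∧ i ≠ k ∧ i ≠ l ∧ j ≠ k ∧ j ≠ l ∧ k ≠ l ∧ W = {i, j, k, l} ∧
      f j ≤ f i ∧ f k ≤ f j ∧ f l ≤ f k := by
  obtain ⟨i, hi, hi'⟩ := Finset.exists_max_image W f (Finset.card_pos.1 (by omega))
  have h1 : (W.erase i).card = 3 := by rw [Finset.card_erase_of_mem hi]; omega
  obtain ⟨j, hj, hj'⟩ := Finset.exists_max_image (W.erase i) f (Finset.card_pos.1 (by omega))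
  have h2 : ((W.erase i).erase j).card = 2 := by rw [Finset.card_erase_of_mem hj]; omega
  obtain ⟨k, hk, hk'⟩ := Finset.exists_max_image ((W.erase i).erase j) f
    (Finset.card_pos.1 (by omega))
  have h3 : (((W.erase i).erase j).erase k).card = 1 := by rw [Finset.card_erase_of_mem hk]; omega
  obtain ⟨l, hl⟩ := Finset.card_eq_one.1 h3
  have e3 : (W.erase i).erase j = {k, l} := by rw [← Finset.insert_erase hk, hl]
  have e2 : W.erase i = {j, k, l} := by rw [← Finset.insert_erase hj, e3]
  have e1 : W = {i, j, k, l} := by rw [← Finset.insert_erase hi, e2]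
  have hl' : l ∈ ((W.erase i).erase j).erase k := by rw [hl]; simp
  simp only [Finset.mem_erase, ne_eq] at hj hk hl'
  refine ⟨i, j, k, l, fun h => hj.1 h.symm, fun h => hk.2.1 h.symm, fun h => hl'.2.2.1 h.symm,
    fun h => hk.1 h.symm, fun h => hl'.2.1 h.symm, fun h => hl'.1 h.symm, e1, ?_, ?_, ?_⟩
  · exact hi' j hj.2
  · exact hj' k (by simp [hk.2.1, hk.2.2])
  · exact hk' l (by simp [hl'.2.1, hl'.2.2.1, hl'.2.2.2])

theorem reach_quad (hL : Lac val idx D) (p : Fin 6 → α) (W : Finset (Fin 6)) (hW : W.card = 4)
    (hz : ∑ i ∈ W, val (p i) = 0) (hp : ∀ i ∈ W, ∀ j ∈ W, i ≠ j → val (p i) + val (p j) ≠ 0) :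
    Reach val idx D p W := by
  obtain ⟨i, j, k, l, hij, hik, hil, hjk, hjl, hkl, rfl, h1, h2, h3⟩ :=
    sort4 W hW (fun i => idx (p i))
  rw [Finset.sum_insert (by simp [hij, hik, hil]), Finset.sum_insert (by simp [hjk, hjl]),
    Finset.sum_pair hkl] at hz
  have hn := hL.near4 (p i) (p j) (p k) (p l) (by omega) h3 h2 h1
    (hp i (by simp) j (by simp) hij)
  have r1 : Reach val idx D p {i} := Reach.single i
  have r2 : Reach val idx D p {j, i} := Reach.near _ i j r1 (by simp) (by omega) (by omega)
  have r3 : Reach val idx D p {k, j, i} := Reach.near _ i k r2 (by simp) (by omega) (by omega)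
  have r4 : Reach val idx D p {l, k, j, i} := by
    refine Reach.det _ {k, j, i} l r3 (Finset.Subset.refl _) ?_
    rw [Finset.sum_insert (by simp [hjk.symm, hik.symm]), Finset.sum_pair hij.symm]
    omega
  have : ({i, j, k, l} : Finset (Fin 6)) = {l, k, j, i} := by
    ext x; simp only [Finset.mem_insert, Finset.mem_singleton]; tauto
  rw [this]; exact r4

theorem z_one (v : Fin 6 → ℤ) (B : Finset (Fin 6)) : z v B = 1 ↔ ∑ i ∈ B, v i = 0 := by
  unfold z; split_ifs with h <;> simp [h]

theorem z_zero (v : Fin 6 → ℤ) (B : Finset (Fin 6)) : z v B = 0 ↔ ∑ i ∈ B, v i ≠ 0 := by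
  unfold z; split_ifs with h <;> simp [h]

/-- Two-element zero set meeting a zero triple and its complement. -/
theorem kap_nonneg (hL : Lac val idx D) (p : Fin 6 → α) (h0 : ∑ i, val (p i) = 0)
    (hR : ¬ Reach val idx D p univ) : 0 ≤ kap (fun i => val (p i)) := by
  set v : Fin 6 → ℤ := fun i => val (p i) with hv
  have hne : ∀ i, v i ≠ 0 := fun i => hL.ne _
  have hcompl : ∀ B : Finset (Fin 6), ∑ i ∈ B, v i = 0 → ∑ i ∈ Bᶜ, v i = 0 := by
    intro B hB
    have := Finset.sum_add_sum_compl B v
    rw [hB, h0, zero_add] at this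
    exact this
  by_cases hT : ∃ T : Finset (Fin 6), T.card = 3 ∧ ∑ i ∈ T, v i = 0
  · obtain ⟨T, hT3, hTz⟩ := hT
    have hTc := hcompl T hTz
    have hTc3 : Tᶜ.card = 3 := by rw [Finset.card_compl, hT3]; rfl
    have hTne : T.Nonempty := Finset.card_pos.1 (by omega)
    obtain ⟨t0, ht0⟩ := hTne
    have rT : Reach val idx D p T := by
      have := reach_triple hL p {t0} (Reach.single t0) T hT3 hTz t0 (by simp) ht0
      rwa [Finset.union_eq_right.2 (by simpa using ht0)] at this
    have rall : ∀ A : Finset (Fin 6), Reach val idx D p A → T ⊆ A → (∃ y ∈ A, y ∉ T) → False := by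
      intro A hA hTA hy
      obtain ⟨y, hy, hyT⟩ := hy
      have := reach_triple hL p A hA Tᶜ hTc3 hTc y hy (by simpa using hyT)
      have h2 : A ∪ Tᶜ = univ := by
        rw [Finset.eq_univ_iff_forall]
        intro x
        by_cases hx : x ∈ T
        · exact Finset.mem_union_left _ (hTA hx)
        · exact Finset.mem_union_right _ (by simpa using hx)
      rw [h2] at this
      exact hR this
    -- no zero pairs
    have hpair : ∀ B ∈ powersetCard 2 (univ : Finset (Fin 6)), z v B = 0 := by
      intro B hB
      rw [z_zero]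
      intro hBz
      obtain ⟨i, j, hij, rfl⟩ := Finset.card_eq_two.1 (Finset.mem_powersetCard.1 hB).2
      rw [Finset.sum_pair hij] at hBz
      by_cases hi : i ∈ T <;> by_cases hj : j ∈ T
      · -- both in T
        have hsub : ({i, j} : Finset (Fin 6)) ⊆ T := by
          intro x hx; simp only [Finset.mem_insert, Finset.mem_singleton] at hx
          rcases hx with rfl | rfl <;> assumption
        have h1 : (T \ {i, j}).card = 1 := by
          rw [Finset.card_sdiff_of_subset hsub, Finset.card_pair hij, hT3]
        obtain ⟨k, hk⟩ := Finset.card_eq_one.1 h1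
        have h2 := Finset.sum_sdiff hsub (f := v)
        rw [hk, Finset.sum_singleton, Finset.sum_pair hij, hBz, hTz, add_zero] at h2
        exact hne k h2
      · refine rall (insert j T) (reach_pair p T i j rT hi hBz) (Finset.subset_insert _ _)
          ⟨j, by simp, hj⟩
      · refine rall (insert i T) (reach_pair p T j i rT hj (by rw [add_comm]; exact hBz))
          (Finset.subset_insert _ _) ⟨i, by simp, hi⟩
      · have hsub : ({i, j} : Finset (Fin 6)) ⊆ Tᶜ := by
          intro x hx; simp only [Finset.mem_insert, Finset.mem_singleton] at hx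
          rcases hx with rfl | rfl <;> simpa
        have h1 : (Tᶜ \ {i, j}).card = 1 := by
          rw [Finset.card_sdiff_of_subset hsub, Finset.card_pair hij, hTc3]
        obtain ⟨k, hk⟩ := Finset.card_eq_one.1 h1
        have h2 := Finset.sum_sdiff hsub (f := v)
        rw [hk, Finset.sum_singleton, Finset.sum_pair hij, hBz, hTc, add_zero] at h2
        exact hne k h2
    have hsum2 : ∑ B ∈ powersetCard 2 univ, z v B = 0 := Finset.sum_eq_zero hpair
    have hsum22 : ∑ B ∈ powersetCard 2 univ, ∑ B' ∈ powersetCard 2 univ with Disjoint B B',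
        z v B * z v B' = 0 := by
      refine Finset.sum_eq_zero fun B hB => Finset.sum_eq_zero fun B' _ => ?_
      rw [hpair B hB, zero_mul]
    have hsum3 : ∑ B ∈ powersetCard 3 univ, z v B ≤ 2 := by
      have h1 : ∀ B ∈ powersetCard 3 (univ : Finset (Fin 6)),
          z v B ≤ if B = T ∨ B = Tᶜ then 1 else 0 := by
        intro B hB
        split_ifs with h
        · unfold z; split_ifs <;> norm_num
        · push Not at h
          have hB3 := (Finset.mem_powersetCard.1 hB).2
          refine le_of_eq ?_
          rw [z_zero]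
          intro hBz
          -- B meets T and its complement
          have h5 : ∃ x ∈ B, x ∈ T := by
            by_contra hcon
            push Not at hcon
            apply h.2
            apply Finset.eq_of_subset_of_card_le
            · intro x hx; simpa using hcon x hx
            · omega
          have h6 : ∃ y ∈ B, y ∉ T := by
            by_contra hcon
            push Not at hcon
            apply h.1
            apply Finset.eq_of_subset_of_card_le
            · intro x hx; exact hcon x hx
            · omega
          obtain ⟨x, hxB, hxT⟩ := h5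
          obtain ⟨y, hyB, hyT⟩ := h6
          exact rall (T ∪ B) (reach_triple hL p T rT B hB3 hBz x hxT hxB)
            Finset.subset_union_left ⟨y, Finset.mem_union_right _ hyB, hyT⟩
      refine (Finset.sum_le_sum h1).trans ?_
      rw [← Finset.sum_filter, Finset.sum_const]
      have h2 : ((powersetCard 3 (univ : Finset (Fin 6))).filter fun B => B = T ∨ B = Tᶜ).card
          ≤ 2 := by
        refine (Finset.card_le_card (t := {T, Tᶜ}) ?_).trans Finset.card_le_two
        intro B hB
        simpa using (Finset.mem_filter.1 hB).2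
      simp only [nsmul_eq_mul, mul_one]
      exact_mod_cast h2
    unfold kap
    rw [hsum2, hsum22]
    omega
  · push Not at hT
    have hsum3 : ∑ B ∈ powersetCard 3 univ, z v B = 0 := by
      refine Finset.sum_eq_zero fun B hB => ?_
      rw [z_zero]
      exact hT B (Finset.mem_powersetCard.1 hB).2
    by_cases hP : ∃ P ∈ powersetCard 2 (univ : Finset (Fin 6)), ∃ P' ∈ powersetCard 2
        (univ : Finset (Fin 6)), Disjoint P P' ∧ ∑ i ∈ P, v i = 0 ∧ ∑ i ∈ P', v i = 0
    · obtain ⟨P, hP, P', hP', hd, hPz, hPz'⟩ := hP
      have hP2 := (Finset.mem_powersetCard.1 hP).2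
      have hP2' := (Finset.mem_powersetCard.1 hP').2
      have hC2 : ((P ∪ P')ᶜ).card = 2 := by
        rw [Finset.card_compl, Finset.card_union_of_disjoint hd, hP2, hP2']; rfl
      have hCz : ∑ i ∈ (P ∪ P')ᶜ, v i = 0 := by
        apply hcompl
        rw [Finset.sum_union hd, hPz, hPz', add_zero]
      obtain ⟨a, b, hab, rfl⟩ := Finset.card_eq_two.1 hP2
      obtain ⟨c, d, hcd, rfl⟩ := Finset.card_eq_two.1 hP2'
      obtain ⟨e, f, hef, hefC⟩ := Finset.card_eq_two.1 hC2
      have he : e ∈ (({a, b} : Finset (Fin 6)) ∪ {c, d})ᶜ := by rw [hefC]; simp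
      have hf : f ∈ (({a, b} : Finset (Fin 6)) ∪ {c, d})ᶜ := by rw [hefC]; simp
      simp only [Finset.mem_compl, Finset.mem_union, Finset.mem_insert, Finset.mem_singleton,
        not_or] at he hf
      have hdl := Finset.disjoint_left.1 hd
      have hac : a ≠ c := fun h => @hdl a (by simp) (by simp [h])
      have had : a ≠ d := fun h => @hdl a (by simp) (by simp [h])
      have hbc : b ≠ c := fun h => @hdl b (by simp) (by simp [h])
      have hbd : b ≠ d := fun h => @hdl b (by simp) (by simp [h])
      rw [Finset.sum_pair hab] at hPz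
      rw [Finset.sum_pair hcd] at hPz'
      rw [hefC, Finset.sum_pair hef] at hCz
      let g : Fin 6 → Fin 6 := ![a, b, c, d, e, f]
      have hg : Function.Injective g := by
        intro i j hij
        fin_cases i <;> fin_cases j <;> simp [g] at hij ⊢ <;>
          first
          | exact (hab hij).elim | exact (hab hij.symm).elim
          | exact (hac hij).elim | exact (hac hij.symm).elim
          | exact (had hij).elim | exact (had hij.symm).elim
          | exact (hbc hij).elim | exact (hbc hij.symm).elim
          | exact (hbd hij).elim | exact (hbd hij.symm).elim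
          | exact (hcd hij).elim | exact (hcd hij.symm).elim
          | exact (hef hij).elim | exact (hef hij.symm).elim
          | exact (he.1.1 hij).elim | exact (he.1.1 hij.symm).elim
          | exact (he.1.2 hij).elim | exact (he.1.2 hij.symm).elim
          | exact (he.2.1 hij).elim | exact (he.2.1 hij.symm).elim
          | exact (he.2.2 hij).elim | exact (he.2.2 hij.symm).elim
          | exact (hf.1.1 hij).elim | exact (hf.1.1 hij.symm).elim
          | exact (hf.1.2 hij).elim | exact (hf.1.2 hij.symm).elim
          | exact (hf.2.1 hij).elim | exact (hf.2.1 hij.symm).elim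
          | exact (hf.2.2 hij).elim | exact (hf.2.2 hij.symm).elim
      let τ : Equiv.Perm (Fin 6) := Equiv.ofBijective g (Finite.injective_iff_bijective.1 hg)
      rw [← kap_perm v τ]
      apply kap_matched
      · exact hPz
      · exact hPz'
      · exact hCz
      · simp only [z_perm]
        rw [sum_perm τ 3 (fun B => z v B)]
        exact hsum3
    · push Not at hP
      have hsum22 : ∑ B ∈ powersetCard 2 univ, ∑ B' ∈ powersetCard 2 univ with Disjoint B B',
          z v B * z v B' = 0 := by
        refine Finset.sum_eq_zero fun B hB => Finset.sum_eq_zero fun B' hB' => ?_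
        rw [Finset.mem_filter] at hB'
        by_cases h : ∑ i ∈ B, v i = 0
        · rw [(z_zero v B').2 (hP B hB B' hB'.1 hB'.2 h), mul_zero]
        · rw [(z_zero v B).2 h, zero_mul]
      have hsum2 : ∑ B ∈ powersetCard 2 univ, z v B ≤ 1 := by
        by_contra hcon
        push Not at hcon
        have h1 : ∑ B ∈ powersetCard 2 univ, z v B =
            (((powersetCard 2 (univ : Finset (Fin 6))).filter
              fun B => ∑ i ∈ B, v i = 0).card : ℤ) := by
          rw [Finset.card_filter]
          push_cast
          refine Finset.sum_congr rfl fun B _ => ?_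
          unfold z
          rfl
        rw [h1] at hcon
        have h2 : 1 < ((powersetCard 2 (univ : Finset (Fin 6))).filter
              fun B => ∑ i ∈ B, v i = 0).card := by exact_mod_cast hcon
        obtain ⟨P, hP1, P', hP1', hne'⟩ := Finset.one_lt_card.1 h2
        rw [Finset.mem_filter] at hP1 hP1'
        have hP2 := (Finset.mem_powersetCard.1 hP1.1).2
        have hP2' := (Finset.mem_powersetCard.1 hP1'.1).2
        have hnd : ¬ Disjoint P P' := fun hd => hP P hP1.1 P' hP1'.1 hd hP1.2 hP1'.2
        rw [Finset.not_disjoint_iff] at hnd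
        obtain ⟨i, hiP, hiP'⟩ := hnd
        -- P = {i, j}, P' = {i, m}
        have c1 : (P.erase i).card = 1 := by rw [Finset.card_erase_of_mem hiP]; omega
        have c2 : (P'.erase i).card = 1 := by rw [Finset.card_erase_of_mem hiP']; omega
        obtain ⟨j, hj⟩ := Finset.card_eq_one.1 c1
        obtain ⟨m, hm⟩ := Finset.card_eq_one.1 c2
        have eP : P = {i, j} := by rw [← Finset.insert_erase hiP, hj]
        have eP' : P' = {i, m} := by rw [← Finset.insert_erase hiP', hm]
        have hij : i ≠ j := by
          intro h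
          rw [eP, h] at hP2
          simp at hP2
        have him : i ≠ m := by
          intro h
          rw [eP', h] at hP2'
          simp at hP2'
        have hjm : j ≠ m := by
          intro h
          apply hne'
          rw [eP, eP', h]
        have hz1 := hP1.2
        have hz2 := hP1'.2
        rw [eP, Finset.sum_pair hij] at hz1
        rw [eP', Finset.sum_pair him] at hz2
        have hWz := hcompl P hP1.2
        have hWc : Pᶜ.card = 4 := by rw [Finset.card_compl, hP2]; rfl
        have rW : Reach val idx D p Pᶜ := by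
          refine reach_quad hL p Pᶜ hWc hWz ?_
          intro s hs t ht hst hzz
          refine hP P hP1.1 {s, t} ?_ ?_ hP1.2 ?_
          · simp [Finset.mem_powersetCard, Finset.card_pair hst]
          · rw [Finset.disjoint_left]
            intro x hxP hx
            simp only [Finset.mem_insert, Finset.mem_singleton] at hx
            rcases hx with rfl | rfl
            · exact (Finset.mem_compl.1 hs) hxP
            · exact (Finset.mem_compl.1 ht) hxP
          · rw [Finset.sum_pair hst]; exact hzz
        have hmW : m ∈ Pᶜ := by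
          rw [eP]; simp [him.symm, hjm.symm]
        have r1 := reach_pair p Pᶜ m i rW hmW (by rw [add_comm]; exact hz2)
        have r2 := reach_pair p (insert i Pᶜ) i j r1 (by simp) hz1
        apply hR
        have : insert j (insert i Pᶜ) = (univ : Finset (Fin 6)) := by
          rw [Finset.eq_univ_iff_forall]
          intro x
          by_cases hx : x ∈ P
          · rw [eP] at hx
            simp only [Finset.mem_insert, Finset.mem_singleton] at hx ⊢
            tauto
          · simp only [Finset.mem_insert, Finset.mem_compl]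
            tauto
        rw [this] at r2
        exact r2
      unfold kap
      rw [hsum22, hsum3]
      omega

end

end Q257.CL
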