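import Pool.Agent.Q257.CL.Cum
import Pool.Agent.Q257.CL.Count
import Pool.Agent.Q257.CL.Gold

set_option autoImplicit false

namespace Q257.CL

open Finset

theorem pc3 : powersetCard 3 (univ : Finset (Fin 6)) = {{0, 1, 2}, {0, 1, 3}, {0, 1, 4}, {0, 1, 5}, {0, 2, 3}, {0, 2, 4}, {0, 2, 5}, {0, 3, 4}, {0, 3, 5}, {0, 4, 5}, {1, 2, 3}, {1, 2, 4}, {1, 2, 5}, {1, 3, 4}, {1, 3, 5}, {1, 4, 5}, {2, 3, 4}, {2, 3, 5}, {2, 4, 5}, {3, 4, 5}} := by
  decide

theorem z_pair' (v : Fin 6 → ℤ) (i j : Fin 6) (h : i ≠ j) (hv : v i + v j ≠ 0) :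
    z v {i, j} = 0 := by
  rw [z_zero, Finset.sum_pair h]; exact hv

theorem z_triple' (v : Fin 6 → ℤ) (i j k : Fin 6) (h : i ≠ j ∧ i ≠ k) (h' : j ≠ k)
    (hv : v i + (v j + v k) ≠ 0) : z v {i, j, k} = 0 := by
  rw [z_zero, Finset.sum_insert (by simp [h.1, h.2]), Finset.sum_pair h']; exact hv

theorem kap_good (v : Fin 6 → ℤ) (A1 A2 B1 B2 : ℤ) (h0 : v 0 = A2 + A1 + 1) (h1 : v 1 = -A2)
    (h2 : v 2 = -A1) (h3 : v 3 = -(B2 + B1 + 1)) (h4 : v 4 = B2) (h5 : v 5 = B1)
    (hA1 : 1 ≤ A1) (hA2 : A1 < A2) (hB1 : 3 * (A2 + A1 + 1) < B1) (hB2 : B1 < B2) :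
    z v univ * kap v = 6 := by
  have hu : z v univ = 1 := by
    rw [z_one, Fin.sum_univ_six, h0, h1, h2, h3, h4, h5]; ring
  have hp : ∀ B ∈ powersetCard 2 (univ : Finset (Fin 6)), z v B = 0 := by
    intro B hB
    rw [pc2] at hB
    simp only [Finset.mem_insert, Finset.mem_singleton] at hB
    rcases hB with rfl | rfl | rfl | rfl | rfl | rfl | rfl | rfl | rfl | rfl | rfl | rfl | rfl | rfl | rfl

    · exact z_pair' v 0 1 (by decide) (by rw [h0, h1]; omega)
    · exact z_pair' v 0 2 (by decide) (by rw [h0, h2]; omega)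
    · exact z_pair' v 0 3 (by decide) (by rw [h0, h3]; omega)
    · exact z_pair' v 0 4 (by decide) (by rw [h0, h4]; omega)
    · exact z_pair' v 0 5 (by decide) (by rw [h0, h5]; omega)
    · exact z_pair' v 1 2 (by decide) (by rw [h1, h2]; omega)
    · exact z_pair' v 1 3 (by decide) (by rw [h1, h3]; omega)
    · exact z_pair' v 1 4 (by decide) (by rw [h1, h4]; omega)
    · exact z_pair' v 1 5 (by decide) (by rw [h1, h5]; omega)
    · exact z_pair' v 2 3 (by decide) (by rw [h2, h3]; omega)
    · exact z_pair' v 2 4 (by decide) (by rw [h2, h4]; omega)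
    · exact z_pair' v 2 5 (by decide) (by rw [h2, h5]; omega)
    · exact z_pair' v 3 4 (by decide) (by rw [h3, h4]; omega)
    · exact z_pair' v 3 5 (by decide) (by rw [h3, h5]; omega)
    · exact z_pair' v 4 5 (by decide) (by rw [h4, h5]; omega)
  have ht : ∀ B ∈ powersetCard 3 (univ : Finset (Fin 6)), z v B = 0 := by
    intro B hB
    rw [pc3] at hB
    simp only [Finset.mem_insert, Finset.mem_singleton] at hB
    rcases hB with rfl | rfl | rfl | rfl | rfl | rfl | rfl | rfl | rfl | rfl | rfl | rfl | rfl | rfl | rfl | rfl | rfl | rfl | rfl | rfl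
    · exact z_triple' v 0 1 2 (by decide) (by decide) (by rw [h0, h1, h2]; omega)
    · exact z_triple' v 0 1 3 (by decide) (by decide) (by rw [h0, h1, h3]; omega)
    · exact z_triple' v 0 1 4 (by decide) (by decide) (by rw [h0, h1, h4]; omega)
    · exact z_triple' v 0 1 5 (by decide) (by decide) (by rw [h0, h1, h5]; omega)
    · exact z_triple' v 0 2 3 (by decide) (by decide) (by rw [h0, h2, h3]; omega)
    · exact z_triple' v 0 2 4 (by decide) (by decide) (by rw [h0, h2, h4]; omega)
    · exact z_triple' v 0 2 5 (by decide) (by decide) (by rw [h0, h2, h5]; omega)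
    · exact z_triple' v 0 3 4 (by decide) (by decide) (by rw [h0, h3, h4]; omega)
    · exact z_triple' v 0 3 5 (by decide) (by decide) (by rw [h0, h3, h5]; omega)
    · exact z_triple' v 0 4 5 (by decide) (by decide) (by rw [h0, h4, h5]; omega)
    · exact z_triple' v 1 2 3 (by decide) (by decide) (by rw [h1, h2, h3]; omega)
    · exact z_triple' v 1 2 4 (by decide) (by decide) (by rw [h1, h2, h4]; omega)
    · exact z_triple' v 1 2 5 (by decide) (by decide) (by rw [h1, h2, h5]; omega)
    · exact z_triple' v 1 3 4 (by decide) (by decide) (by rw [h1, h3, h4]; omega)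
    · exact z_triple' v 1 3 5 (by decide) (by decide) (by rw [h1, h3, h5]; omega)
    · exact z_triple' v 1 4 5 (by decide) (by decide) (by rw [h1, h4, h5]; omega)
    · exact z_triple' v 2 3 4 (by decide) (by decide) (by rw [h2, h3, h4]; omega)
    · exact z_triple' v 2 3 5 (by decide) (by decide) (by rw [h2, h3, h5]; omega)
    · exact z_triple' v 2 4 5 (by decide) (by decide) (by rw [h2, h4, h5]; omega)
    · exact z_triple' v 3 4 5 (by decide) (by decide) (by rw [h3, h4, h5]; omega)
  rw [hu, one_mul]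
  unfold kap
  rw [Finset.sum_eq_zero hp, Finset.sum_eq_zero ht]
  have : ∑ B ∈ powersetCard 2 univ, ∑ B' ∈ powersetCard 2 univ with Disjoint B B',
      z v B * z v B' = 0 := by
    refine Finset.sum_eq_zero fun B hB => Finset.sum_eq_zero fun B' _ => ?_
    rw [hp B hB, zero_mul]
  rw [this]; norm_num

theorem kap_lower (v : Fin 6 → ℤ) : -144 ≤ kap v := by
  have h1 : ∀ B, z v B ≤ 1 := by intro B; unfold z; split_ifs <;> norm_num
  have h2 : ∑ B ∈ powersetCard 2 univ, z v B ≤ 15 := by
    refine (Finset.sum_le_card_nsmul _ _ 1 fun B _ => h1 B).trans ?_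
    rw [Finset.card_powersetCard]; simp; decide
  have h3 : ∑ B ∈ powersetCard 3 univ, z v B ≤ 20 := by
    refine (Finset.sum_le_card_nsmul _ _ 1 fun B _ => h1 B).trans ?_
    rw [Finset.card_powersetCard]; simp; decide
  have h4 : 0 ≤ ∑ B ∈ powersetCard 2 univ, ∑ B' ∈ powersetCard 2 univ with Disjoint B B',
      z v B * z v B' :=
    Finset.sum_nonneg fun B _ => Finset.sum_nonneg fun B' _ =>
      mul_nonneg (z_nonneg v B) (z_nonneg v B')
  unfold kap
  linarith

theorem abs_val (n : ℕ) (x : Ix n) : |val fr x| = fr (x.1 + 1) := by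
  have h := fr_pos (x.1 + 1)
  unfold val
  split_ifs
  · rw [one_mul, abs_of_pos (by omega)]
  · rw [neg_one_mul, abs_neg, abs_of_pos (by omega)]

theorem lac (n : ℕ) : Lac (val fr (n := n)) (fun x => (x.1 : ℕ)) 20 where
  ne x := by
    have h := fr_pos (x.1 + 1)
    rw [← abs_pos, abs_val]; omega
  g0 x y h := by
    rw [abs_val, abs_val]
    exact fr_g0 _ _ (by omega)
  mono x y h := by
    rw [abs_val, abs_val]
    exact fr_mono (by omega)
  g1 x y z h hne h' := by
    rw [abs_val, abs_val] at hne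
    rw [abs_val, abs_val, abs_val]
    exact fr_g1 _ _ _ (by omega) hne (by omega)

theorem card_near (n : ℕ) (x : Ix n) : (univ.filter fun y : Ix n =>
    (x.1 : ℕ) ≤ (y.1 : ℕ) + 20 ∧ (y.1 : ℕ) ≤ (x.1 : ℕ) + 20).card ≤ 82 := by
  have h1 : (univ.filter fun y : Ix n =>
      (x.1 : ℕ) ≤ (y.1 : ℕ) + 20 ∧ (y.1 : ℕ) ≤ (x.1 : ℕ) + 20).card ≤
      ((Finset.Icc ((x.1 : ℕ) - 20) ((x.1 : ℕ) + 20)) ×ˢ (univ : Finset Bool)).card := by
    refine Finset.card_le_card_of_injOn (fun y => ((y.1 : ℕ), y.2)) ?_ ?_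
    · intro y hy
      have hy' := (Finset.mem_filter.1 hy).2
      simp only [Finset.coe_product, Set.mem_prod, Finset.mem_coe, Finset.mem_Icc,
        Finset.mem_univ, and_true]
      omega
    · intro y _ y' _ h
      simp only [Prod.mk.injEq] at h
      exact Prod.ext (Fin.ext h.1) h.2
  refine h1.trans ?_
  rw [Finset.card_product, Nat.card_Icc, Finset.card_univ, Fintype.card_bool]
  omega

theorem card_same (n : ℕ) (c : ℤ) :
    (univ.filter fun y : Ix n => val fr y = c).card ≤ 82 := by
  rcases Finset.eq_empty_or_nonempty (univ.filter fun y : Ix n => val fr y = c) with h | ⟨x, hx⟩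
  · rw [h]; simp
  · refine (Finset.card_le_card ?_).trans (card_near n x)
    intro y hy
    rw [Finset.mem_filter] at hx hy ⊢
    have hL := lac n
    have e : |val fr x| = |val fr y| := by rw [hx.2, hy.2]
    have p := abs_pos.2 (hL.ne x)
    refine ⟨Finset.mem_univ _, ?_, ?_⟩
    · by_contra hc
      push Not at hc
      have := hL.g0 x y (by simpa using hc.le)
      omega
    · by_contra hc
      push Not at hc
      have := hL.g0 y x (by simpa using hc.le)
      omega

/-- The total. -/
theorem total_lower (n R : ℕ) (hR : 8 * R + 26 ≤ n) :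
    6 * (R : ℤ) ^ 2 - 150 * (6 ^ 6 * (2 * n * 3034 ^ 5)) ≤
      ∑ q : Fin 6 → Ix n, z (fun i => val fr (q i)) univ * kap (fun i => val fr (q i)) := by
  classical
  let pos : (j : ℕ) → 2 * j < n + 1 → 1 ≤ j → Fin n := fun j h h' => ⟨2 * j - 1, by omega⟩
  let g : Fin R × Fin R → (Fin 6 → Ix n) := fun st =>
    ![(pos (2 * st.1 + 3) (by omega) (by omega), true),
      (pos (2 * st.1 + 2) (by omega) (by omega), false),
      (pos (2 * st.1 + 1) (by omega) (by omega), false),
      (pos (2 * (st.2 + R + 6) + 3) (by omega) (by omega), false),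
      (pos (2 * (st.2 + R + 6) + 2) (by omega) (by omega), true),
      (pos (2 * (st.2 + R + 6) + 1) (by omega) (by omega), true)]
  have hpos : ∀ (j : ℕ) (h : 2 * j < n + 1) (h' : 1 ≤ j), ((pos j h h' : Fin n) : ℕ) + 1 = 2 * j := by
    intro j h h'
    change 2 * j - 1 + 1 = 2 * j
    omega
  have hg : Function.Injective g := by
    intro a b hab
    have h0 := congrArg (fun f => ((f 0).1 : ℕ)) hab
    have h3 := congrArg (fun f => ((f 3).1 : ℕ)) hab
    simp only [g, pos] at h0 h3
    have e0 : 2 * (2 * (a.1 : ℕ) + 3) - 1 = 2 * (2 * (b.1 : ℕ) + 3) - 1 := h0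
    have e3 : 2 * (2 * ((a.2 : ℕ) + R + 6) + 3) - 1 = 2 * (2 * ((b.2 : ℕ) + R + 6) + 3) - 1 := h3
    refine Prod.ext (Fin.ext ?_) (Fin.ext ?_) <;> omega
  have hgood : ∀ st, z (fun i => val fr (g st i)) univ * kap (fun i => val fr (g st i)) = 6 := by
    intro st
    set s : ℕ := (st.1 : ℕ) with hs
    set t : ℕ := (st.2 : ℕ) + R + 6 with ht
    have hst : s + 6 ≤ t := by have := st.1.2; omega
    have htn : 4 * t + 6 ≤ n := by have := st.2.2; omega
    have r1 := fr_rel s
    have r2 := fr_rel t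
    refine kap_good _ (fr (2 * (2 * s + 1))) (fr (2 * (2 * s + 2))) (fr (2 * (2 * t + 1)))
      (fr (2 * (2 * t + 2))) ?_ ?_ ?_ ?_ ?_ ?_ (fr_pos _) (fr_lt (2 * s)) ?_ (fr_lt (2 * t))
    · have hb : 2 * (2 * s + 3) < n + 1 := by omega
      have hc : 1 ≤ 2 * s + 3 := by omega
      change val fr (pos (2 * s + 3) hb hc, true) = _
      unfold val
      rw [hpos _ hb hc, if_pos rfl, r1]; ring
    · have hb : 2 * (2 * s + 2) < n + 1 := by omega
      have hc : 1 ≤ 2 * s + 2 := by omega
      change val fr (pos (2 * s + 2) hb hc, false) = _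
      unfold val
      rw [hpos _ hb hc]; simp
    · have hb : 2 * (2 * s + 1) < n + 1 := by omega
      have hc : 1 ≤ 2 * s + 1 := by omega
      change val fr (pos (2 * s + 1) hb hc, false) = _
      unfold val
      rw [hpos _ hb hc]; simp
    · have hb : 2 * (2 * t + 3) < n + 1 := by omega
      have hc : 1 ≤ 2 * t + 3 := by omega
      change val fr (pos (2 * t + 3) hb hc, false) = _
      unfold val
      rw [hpos _ hb hc, r2]; simp
    · have hb : 2 * (2 * t + 2) < n + 1 := by omega
      have hc : 1 ≤ 2 * t + 2 := by omega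
      change val fr (pos (2 * t + 2) hb hc, true) = _
      unfold val
      rw [hpos _ hb hc, if_pos rfl]; ring
    · have hb : 2 * (2 * t + 1) < n + 1 := by omega
      have hc : 1 ≤ 2 * t + 1 := by omega
      change val fr (pos (2 * t + 1) hb hc, true) = _
      unfold val
      rw [hpos _ hb hc, if_pos rfl]; ring
    · rw [← r1]
      exact fr_g0 _ _ (by omega)
  set G : Finset (Fin 6 → Ix n) := univ.image g with hG
  set Bd : Finset (Fin 6 → Ix n) := univ.filter fun p =>
    Reach (val fr (n := n)) (fun x => (x.1 : ℕ)) 20 p univ with hBd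
  have hGc : G.card = R ^ 2 := by
    rw [hG, Finset.card_image_of_injective _ hg, Finset.card_univ, Fintype.card_prod,
      Fintype.card_fin, sq]
  have hBc : Bd.card ≤ 6 ^ 6 * (2 * n * 3034 ^ 5) := by
    have := card_reach (val := val fr (n := n)) (idx := fun x => (x.1 : ℕ)) (D := 20) 3034
      (fun m hm q => card_Opt 82 82 (card_near n) (card_same n) m hm q)
    rw [Fintype.card_prod, Fintype.card_fin, Fintype.card_bool, mul_comm n 2] at this
    exact this
  have hpt : ∀ q : Fin 6 → Ix n, (6 * (if q ∈ G then 1 else 0) - 150 * (if q ∈ Bd then 1 else 0) : ℤ)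
      ≤ z (fun i => val fr (q i)) univ * kap (fun i => val fr (q i)) := by
    intro q
    by_cases hq : q ∈ G
    · rw [if_pos hq]
      obtain ⟨st, _, rfl⟩ := Finset.mem_image.1 hq
      rw [hgood st]
      split_ifs <;> norm_num
    · rw [if_neg hq]
      by_cases hB : q ∈ Bd
      · rw [if_pos hB]
        have h1 := kap_lower (fun i => val fr (q i))
        have h2 := z_nonneg (fun i => val fr (q i)) univ
        have h3 : z (fun i => val fr (q i)) univ ≤ 1 := by unfold z; split_ifs <;> norm_num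
        nlinarith
      · rw [if_neg hB]
        rw [hBd, Finset.mem_filter] at hB
        push Not at hB
        have hB' := hB (Finset.mem_univ _)
        unfold z
        split_ifs with hz
        · rw [one_mul]
          have := kap_nonneg (lac n) q hz hB'
          linarith
        · norm_num
  refine le_trans ?_ (Finset.sum_le_sum fun q _ => hpt q)
  rw [Finset.sum_sub_distrib, ← Finset.mul_sum, ← Finset.mul_sum]
  have e1 : ∑ q : Fin 6 → Ix n, (if q ∈ G then 1 else 0 : ℤ) = (R : ℤ) ^ 2 := by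
    rw [Finset.sum_boole, Finset.filter_mem_eq_inter, Finset.univ_inter, hGc]; push_cast; rfl
  have e2 : ∑ q : Fin 6 → Ix n, (if q ∈ Bd then 1 else 0 : ℤ) ≤ 6 ^ 6 * (2 * n * 3034 ^ 5) := by
    rw [Finset.sum_boole, Finset.filter_mem_eq_inter, Finset.univ_inter]
    exact_mod_cast hBc
  rw [e1]
  linarith

/-- Weak lower bound for all `n`. -/
theorem total_lower_small (n : ℕ) :
    - (150 * (6 ^ 6 * (2 * n * 3034 ^ 5))) ≤
      ∑ q : Fin 6 → Ix n, z (fun i => val fr (q i)) univ * kap (fun i => val fr (q i)) := by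
  classical
  set Bd : Finset (Fin 6 → Ix n) := univ.filter fun p =>
    Reach (val fr (n := n)) (fun x => (x.1 : ℕ)) 20 p univ with hBd
  have hBc : Bd.card ≤ 6 ^ 6 * (2 * n * 3034 ^ 5) := by
    have := card_reach (val := val fr (n := n)) (idx := fun x => (x.1 : ℕ)) (D := 20) 3034
      (fun m hm q => card_Opt 82 82 (card_near n) (card_same n) m hm q)
    rw [Fintype.card_prod, Fintype.card_fin, Fintype.card_bool, mul_comm n 2] at this
    exact this
  have hpt : ∀ q : Fin 6 → Ix n, (- (150 * (if q ∈ Bd then 1 else 0)) : ℤ)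
      ≤ z (fun i => val fr (q i)) univ * kap (fun i => val fr (q i)) := by
    intro q
    by_cases hB : q ∈ Bd
    · rw [if_pos hB]
      have h1 := kap_lower (fun i => val fr (q i))
      have h2 := z_nonneg (fun i => val fr (q i)) univ
      have h3 : z (fun i => val fr (q i)) univ ≤ 1 := by unfold z; split_ifs <;> norm_num
      nlinarith
    · rw [if_neg hB]
      rw [hBd, Finset.mem_filter] at hB
      push Not at hB
      have hB' := hB (Finset.mem_univ _)
      unfold z
      split_ifs with hz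
      · rw [one_mul]
        have := kap_nonneg (lac n) q hz hB'
        linarith
      · norm_num
  refine le_trans ?_ (Finset.sum_le_sum fun q _ => hpt q)
  rw [Finset.sum_neg_distrib, ← Finset.mul_sum]
  have e2 : ∑ q : Fin 6 → Ix n, (if q ∈ Bd then 1 else 0 : ℤ) ≤ 6 ^ 6 * (2 * n * 3034 ^ 5) := by
    rw [Finset.sum_boole, Finset.filter_mem_eq_inter, Finset.univ_inter]
    exact_mod_cast hBc
  linarith

theorem total_bound : ∃ K : ℕ, ∀ n : ℕ,
    (∀ R : ℕ, 8 * R + 26 ≤ n → 6 * (R : ℤ) ^ 2 - K * n ≤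
      ∑ q : Fin 6 → Ix n, z (fun i => val fr (q i)) univ * kap (fun i => val fr (q i))) ∧
    (- (K * n : ℤ)) ≤
      ∑ q : Fin 6 → Ix n, z (fun i => val fr (q i)) univ * kap (fun i => val fr (q i)) := by
  refine ⟨150 * (6 ^ 6 * (2 * 3034 ^ 5)), fun n => ⟨fun R hR => ?_, ?_⟩⟩
  · refine le_trans (le_of_eq ?_) (total_lower n R hR)
    push_cast; ring
  · refine le_trans (le_of_eq ?_) (total_lower_small n)
    push_cast; ring

end Q257.CL
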